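import Pool.Agent.MP_ee8c61_ag.N3K.Spec

/-! Formal properties of a chamber, first part. -/

namespace Pool.Agent.MP_ee8c61_ag.N3.M3K

open Pool.Agent.MP_ee8c61_ag.M3

set_option linter.unusedSectionVars false

variable [Base]

open H59 M3 M3E Finset

namespace RKa

variable {N : ℕ} {f : Po N} {M : Mod N} (C : Ch f M)

theorem inn_mem {d : M.J → ℚ} (h : Inn C.U d) : d ∈ C.U := by
  obtain ⟨δ, -, h⟩ := h 0
  simpa using h

theorem inn_smul {d : M.J → ℚ} (h : Inn C.U d) {c : ℚ} (hc : 0 < c) : Inn C.U (c • d) := fun u => by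
  obtain ⟨δ, h1, h2⟩ := h u
  refine ⟨c * δ, mul_pos hc h1, ?_⟩
  have := C.smul _ h2 c hc
  rwa [smul_add, smul_smul] at this

theorem inn_add {d d' : M.J → ℚ} (h : Inn C.U d) (h' : d' ∈ C.U) : Inn C.U (d + d') := fun u => by
  obtain ⟨δ, h1, h2⟩ := h u
  refine ⟨δ, h1, ?_⟩
  rw [add_right_comm]
  exact C.add _ h2 _ h'

theorem far (d : M.J → ℚ) (h : Inn C.U d) (x : M.J → ℚ) :
    ∃ r₀ : ℕ, ∀ r ≥ r₀, Inn C.U (r • d + x) ∧ r • d + x ∈ C.U := by
  obtain ⟨δ, h1, h2⟩ := h x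
  obtain ⟨r₀, h3⟩ := exists_nat_gt δ⁻¹
  refine ⟨r₀, fun r hr => ?_⟩
  have h4 := C.smul _ h2 δ⁻¹ (inv_pos.2 h1)
  rw [smul_add, smul_smul, inv_mul_cancel₀ h1.ne', one_smul] at h4
  have h5 : (0 : ℚ) < r - δ⁻¹ := sub_pos.2 (h3.trans_le (Nat.cast_le.2 hr))
  have h6 := inn_add C (inn_smul C h h5) h4
  rw [← add_assoc, ← add_smul, sub_add_cancel, Nat.cast_smul_eq_nsmul] at h6
  exact ⟨h6, inn_mem C h6⟩

theorem mob (d : M.J → ℚ) (hd : d ∈ C.U) :
    ∃ (m : ℕ) (c : M.J → ℤ) (c' : C.W.J → ℤ), 0 < m ∧ M.q c = m • d ∧ Mob C c c' := by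
  obtain ⟨m, c, c', h1, h2, h3, h4, h5⟩ := C.free d hd
  exact ⟨m, c, c', h1, h2, by rw [h3, h2, map_nsmul], h4, h5⟩

theorem exists_int (d : M.J → ℚ) : ∃ (m : ℕ) (c : M.J → ℤ), 0 < m ∧ M.q c = m • d := by
  refine ⟨∏ j, (d j).den, fun j => (d j).num * ∏ i ∈ univ.erase j, ((d i).den : ℤ),
    prod_pos fun j _ => (d j).den_pos, funext fun j => ?_⟩
  rw [← mul_prod_erase _ _ (mem_univ j)]
  simp only [Mod.q_apply, Pi.smul_apply, nsmul_eq_mul]
  push_cast
  rw [← Rat.mul_den_eq_num (d j)]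
  ring

end RKa

open RKa in
theorem rowKa : OfKa := by
  intro hE hN N f M C hM
  have B := hE.bas N f M hM
  have BW := hE.bas N f C.W C.ok
  have G := hN N f M hM
  have GW := hN N f C.W C.ok
  have SHW := hE.h N f C.W C.ok
  have Dc := hE.dc N f C.W M C.D C.ok hM
  have Aq := hE.aq N f C.W C.ok
  have mobn : ∀ c c' (n : ℕ), Mob C c c' → Mob C (n • c) (n • c') := fun c c' n h =>
    ⟨by rw [Mod.q_nsmul, Mod.q_nsmul, h.eq, map_nsmul], BW.free_nsmul _ _ h.free, fun k => by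
      rw [smul_smul, smul_smul, h.H]⟩
  have h1 : ∀ {c c'}, Mob C c c' → M.H c = C.W.H c' := fun h => by simpa using h.H 1
  have pz : ∃ c L, Pz C c L := by
    obtain ⟨s, -, hs⟩ := C.inn
    obtain ⟨m, c, c', h1, h2, h3⟩ := mob C _ (inn_mem C hs)
    refine ⟨c, c', h3, ?_⟩
    rw [h2, ← Nat.cast_smul_eq_nsmul ℚ]
    exact inn_smul C hs (Nat.cast_pos.2 h1)
  have semi : ∀ d ∈ C.U, C.W.SemiQ (C.P d) := fun d hd => by
    obtain ⟨m, c, c', h1, h2, h3⟩ := mob C d hd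
    exact ⟨m, c', h1, h3.free, by rw [h3.eq, h2, map_nsmul]⟩
  have gv : ∀ c' i, C.W.Free c' → ∃ g ∈ C.W.H c', g ≠ 0 ∧ (C.W.v i).v g = -c' i := fun c' i h => by
    obtain ⟨g, hg, h2⟩ := GW.ex c' _ h (BW.ov_v i)
    exact ⟨g, hg, (BW.gen_v i c' g).1 h2⟩
  have hv : ∀ c' i, ∀ g ∈ C.W.H c', g ≠ 0 → -c' i ≤ (C.W.v i).v g := fun c' i g hg h0 =>
    (((SHW c' g).1 hg).2 i).resolve_left h0
  have exc : ∀ c, ∀ g ∈ M.H c, g ≠ 0 → ∀ i, -C.P (M.q c) i ≤ (C.W.v i).v g := by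
    intro c g hg h0 i
    obtain ⟨c₀, L, hp⟩ := pz
    obtain ⟨r, hr⟩ := far C _ hp.inn (M.q c)
    obtain ⟨m, c₁, c₁', hm, e, h2⟩ := mob C _ (hr r le_rfl).2
    obtain ⟨s, hs, s0, hsv⟩ := gv L i hp.free
    rw [← M.q_nsmul, ← M.q_add, ← M.q_nsmul] at e
    obtain rfl := M.q_inj e
    have h3 := G.pow _ m _ (G.mul _ _ _ (G.pow _ r _ (h1 hp.toMob ▸ hs)) g hg)
    have h4 := hv _ i _ (h1 h2 ▸ h3) (pow_ne_zero _ (mul_ne_zero (pow_ne_zero _ s0) h0))
    rw [DV.pow, (C.W.v i).mul _ _ (pow_ne_zero _ s0) h0, DV.pow, hsv] at h4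
    have h5 := congrFun h2.eq i
    have h6 := congrFun hp.eq i
    rw [M.q_nsmul, M.q_add, M.q_nsmul, map_nsmul, map_add, map_nsmul] at h5
    simp only [Mod.q_apply, Pi.smul_apply, Pi.add_apply, nsmul_eq_mul, Pi.mul_apply,
      Pi.natCast_apply] at h5 h6
    have h7 : (-(c₁' i : ℚ)) ≤ m * (r * -(L i : ℚ) + (C.W.v i).v g) := by exact_mod_cast h4
    have h8 : (0 : ℚ) < m := Nat.cast_pos.2 hm
    rw [h5, ← h6] at h7
    refine le_of_mul_le_mul_left ?_ h8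
    linarith
  have le : ∀ d ∈ C.U, C.P d ≤ C.D.pb d := fun d hd i => by
    obtain ⟨m, c, c', hm, e, h2⟩ := mob C d hd
    obtain ⟨s, hs, s0, hsv⟩ := gv c' i h2.free
    have h3 := hv _ i s (by rw [Dc.H, h1 h2]; exact hs) s0
    have h4 := congrFun h2.eq i
    have h5 := congrFun (C.D.q_pb c) i
    rw [e, map_nsmul] at h4
    rw [e, C.D.pb_nsmul] at h5
    simp only [Mod.q_apply, Pi.smul_apply, nsmul_eq_mul] at h4 h5
    have h7 : (c' i : ℚ) ≤ (C.D.pb c i : ℤ) := by exact_mod_cast (by omega : c' i ≤ C.D.pb c i)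
    refine le_of_mul_le_mul_left ?_ (Nat.cast_pos.2 hm : (0 : ℚ) < m)
    linarith
  have xi : ∀ A, C.W.SemiQ A → A ≤ C.P (C.D.pf A) := fun A ⟨μ, w, hμ, hw, e⟩ i => by
    obtain ⟨g, hg, g0, hgv⟩ := gv w i hw
    have h2 := exc _ g (Dc.push w hg) g0 i
    have h3 : M.q (C.D.pf w) = μ • C.D.pf A := funext fun j => congrFun e (C.D.e j)
    have h4 := congrFun e i
    rw [h3, map_nsmul, hgv] at h2
    simp only [Mod.q_apply, Pi.smul_apply, nsmul_eq_mul] at h2 h4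
    push_cast at h2
    refine le_of_mul_le_mul_left ?_ (Nat.cast_pos.2 hμ : (0 : ℚ) < μ)
    linarith
  have ge : ∀ A, M.SemiQ A → C.D.pb A ≤ C.P A := fun A hA => by
    have := xi _ (Dc.semi A hA)
    rwa [show C.D.pf (C.D.pb A) = A from funext fun j => Dc.pb_e ℚ A j] at this
  have mono : ∀ d, 0 ≤ d → 0 ≤ C.P d := fun d hd i => by
    obtain ⟨m, c, hm, e⟩ := exists_int d
    have h2 : (1 : KK N) ∈ M.H c := fun V _ b hb => by
      rw [one_mul]
      refine hb _ (B.mon_mem b c fun j => ?_)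
      have h3 := congrFun e j
      have h4 : (0 : ℚ) ≤ d j := hd j
      simp only [Mod.q_apply, Pi.smul_apply, nsmul_eq_mul] at h3
      have : (0 : ℚ) ≤ c j := by rw [h3]; positivity
      exact_mod_cast this
    have h3 := exc c 1 h2 one_ne_zero i
    rw [e, map_nsmul, DV.one] at h3
    simp only [Pi.smul_apply, nsmul_eq_mul, Int.cast_zero] at h3
    exact nonneg_of_mul_nonneg_right (by linarith) (Nat.cast_pos.2 hm : (0 : ℚ) < m)
  have one : ∀ d i, Inn C.U d → C.P d i = C.D.pb d i → ∀ d', C.P d' i = C.D.pb d' i := by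
    intro d i hd e
    have key : ∀ d', C.P d' i ≤ C.D.pb d' i := fun d' => by
      obtain ⟨δ, h2, h3⟩ := hd d'
      have h4 := le _ h3 i
      rw [map_add, map_smul, C.D.pb_add, C.D.pb_smul] at h4
      simp only [Pi.add_apply, Pi.smul_apply, smul_eq_mul] at h4
      exact le_of_mul_le_mul_left (by linarith) h2
    intro d'
    have h2 := key (-d')
    rw [map_neg, C.D.pb_neg] at h2
    exact le_antisymm (key d') (neg_le_neg_iff.1 h2)
  have dead : ∀ j, ¬C.Alive j → C.P (M.q (M.e j)) = 0 := fun j hj => by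
    obtain ⟨c, L, hp⟩ := pz
    have h2 : L (C.D.e j) < c j := by
      have h3 := le _ (inn_mem C hp.inn) (C.D.e j)
      have h4 : C.P (M.q c) (C.D.e j) ≠ C.D.pb (M.q c) (C.D.e j) := fun e =>
        hj fun d => (one _ _ hp.inn e d).trans (Dc.pb_e ℚ d j)
      have h5 := lt_of_le_of_ne h3 h4
      rw [← hp.eq, Dc.pb_e] at h5
      exact_mod_cast (show ((L (C.D.e j) : ℤ) : ℚ) < c j from h5)
    refine funext fun i => le_antisymm ?_ (mono _ (fun l => ?_) i)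
    · obtain ⟨s, hs, s0, hsv⟩ := gv L i hp.free
      have h3 := hv _ (C.D.e j) s hs s0
      rw [C.D.v] at h3
      have h4 := exc _ s (G.van c j s (h1 hp.toMob ▸ hs) (Or.inr (by omega))) s0 i
      have h5 := congrFun hp.eq i
      rw [M.q_sub, map_sub, hsv] at h4
      simp only [Mod.q_apply, Pi.sub_apply, Pi.zero_apply] at h4 h5 ⊢
      push_cast at h4
      linarith
    · simp only [Mod.q_apply, M.e_apply, Pi.zero_apply]
      split_ifs <;> simp
  refine ⟨mob C, mobn, pz, fun c L n hn h => ⟨mobn _ _ n h.toMob, ?_⟩, far C, semi,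
    fun c L h x => ?_, exc, fun Λ Λ' h g hg => ?_, le, ge, ?_, mono, xi, one, dead,
    fun d d' h => ?_, fun c L o h ho => ?_⟩
  · rw [M.q_nsmul, ← Nat.cast_smul_eq_nsmul ℚ]
    exact inn_smul C h.inn (Nat.cast_pos.2 hn)
  · obtain ⟨r₀, hr⟩ := far C _ h.inn x
    refine ⟨r₀, fun r h2 A hA => ?_⟩
    have h3 := Aq.add A _ hA (semi _ (hr r h2).2)
    rwa [map_add, map_nsmul, ← h.eq, add_comm] at h3
  · refine (SHW _ _).2 ⟨((SHW _ _).1 hg).1, fun i => ?_⟩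
    by_cases h0 : g = 0
    · exact Or.inl h0
    have h2 := exc _ g (Dc.push Λ hg) h0 i
    have h3 : ((-Λ' i - 1 : ℤ) : ℚ) < ((C.W.v i).v g : ℤ) := by
      push_cast
      linarith [h i]
    have h4 := Int.cast_lt.1 h3
    exact Or.inr (by omega)
  · have h2 := ge _ ⟨1, _, one_pos, B.free_aa 1, by rw [one_smul, one_smul]⟩
    have h3 := ge (-M.q M.aa) ⟨1, _, one_pos, B.free_aa (-1), by
      rw [neg_smul, one_smul, one_smul, M.q_neg]⟩
    rw [map_neg, C.D.pb_neg] at h3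
    rw [le_antisymm (neg_le_neg_iff.1 h3) h2, ← C.D.q_pb, Dc.aa]
  · rw [← sub_eq_zero, ← map_sub]
    have e : d - d' = ∑ j, (d j - d' j) • M.q (M.e j) := funext fun l => by
      simp [M.e_apply, Finset.sum_apply]
    rw [e, map_sum]
    refine sum_eq_zero fun j _ => ?_
    by_cases hj : C.Alive j
    · rw [h j hj, sub_self, zero_smul, map_zero]
    · rw [map_smul, dead j hj, smul_zero]
  · obtain ⟨w, hw⟩ := C.ok.amp
    obtain ⟨r, hr⟩ := far C _ h.inn (-C.D.pf (C.W.q w))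
    obtain ⟨m, c₁, c₁', hm, e, h2⟩ := mob C _ (hr r le_rfl).2
    have h3 := h2.eq
    rw [e, map_nsmul, map_add, map_nsmul, map_neg, ← h.eq] at h3
    have h4 : ∀ i, (((m * r) • L - c₁' - m • w) i : ℚ) =
        m * (C.P (C.D.pf (C.W.q w)) i - w i) := fun i => by
      have h5 := congrFun h3 i
      simp only [Mod.q_apply, Pi.smul_apply, Pi.add_apply, Pi.neg_apply, Pi.sub_apply,
        nsmul_eq_mul, Pi.mul_apply, Pi.natCast_apply] at h5 ⊢
      push_cast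
      rw [h5]
      ring
    refine ⟨m * r, c₁', m • w, (m * r) • L - c₁' - m • w, h2.free, Aq.nsmul w m hm hw,
      fun i => ?_, ?_, by abel⟩
    · have h5 := xi _ (Aq.semi _ (Aq.of_amp w hw)) i
      have h6 : (0 : ℚ) ≤ ((m * r) • L - c₁' - m • w) i := by
        rw [h4]
        exact mul_nonneg (Nat.cast_nonneg _) (sub_nonneg.2 h5)
      exact_mod_cast h6
    · have h6 := h4 (C.D.e o)
      rw [ho, show C.D.pf (C.W.q w) o = w (C.D.e o) from rfl, sub_self, mul_zero] at h6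
      exact_mod_cast h6

end Pool.Agent.MP_ee8c61_ag.N3.M3K
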