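import Pool.Agent.MP_ee8c61_ag.N3K.PD
import Pool.Agent.MP_ee8c61_ag.N3KV.Asm

/-! The output of the block; curves that are not contracted, in terms of the chamber. -/

namespace Pool.Agent.MP_ee8c61_ag.N3.M3K

open Pool.Agent.MP_ee8c61_ag.M3

set_option linter.unusedSectionVars false

variable [Base]

open H59 M3 M3E Finset

/-- A curve that is not contracted is a double curve of `M`, or an orbifold curve. -/
def SKvl : Prop := ∀ (f : Po 3) (M : Mod 3) (C : Ch f M), M.OK f → ∀ o i V c L (n : ℕ),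
  C.Alive o → Pz C c L → C.W.IsCv (C.D.e o) i V → Nn C.W V (n • L) →
  (dl C i = 0 ∧ ∃ j, C.Alive j ∧ M.IsCv o j V ∧
    ∀ j', j' ≠ o → C.P (M.q (M.e j')) i = if j' = j then 1 else 0) ∨
  ∃ e : ℕ, 0 < e ∧ dl C i = 1 / e ∧ (∀ j, j ≠ o → C.P (M.q (M.e j)) i = 0) ∧
    (e = 1 → ∃ O Z, M3KV.Reg f C.W (C.D.e o) i V O Z)

/-- Everything that the block exports. -/
structure KOut : Prop where
  ng0 : SNg0
  th : STh
  ka : SKa
  kb : SKb
  xi : SXi
  rf : SRf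
  sep : SSep
  real : SReal
  ul : SUl
  tr : STr
  tr4 : STr4
  tc : STc
  lo : SLo
  ng : SNg
  bir : SBir
  rv : SRv
  nn : SNn
  wall : SWall
  r0 : SR0
  up : SUp
  dt : SDt
  core : SCore
  mo : SMo
  cn : SCn
  av : SAv
  na : SNa
  nc : SNc
  iso : SIso
  node : SNode
  hor : SHor
  null : SNull
  nbr : SNbr
  kvl : SKvl

theorem kvl_of (hE : EOut) (hN : SNg0) (hA : SKa) (hB : SKb) (hn : SNn) (hc : SCore) : SKvl := by
  intro f M C hM o i V c L n ho hp hV h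
  have K := hA 3 f M C hM
  have K' := hB 3 f M C hM
  have Dc := hE.dc 3 f C.W M C.D C.ok hM
  obtain ⟨-, hD, hR, -⟩ := M3KV.block_of hE.bas hE.nb hE.der hE.cv hE.l0
  have hQ := pdOf_ok hE hN hA hB hM hp ho
  have hNN := pdOf_nn hE hN hA hn hM hp ho hV h
  have el : (pdOf C L).ll i = dl C i := by
    have e : C.D.pf (fun j => (C.W.k j : ℚ) + 1) = M.nu := funext fun l => by
      simp only [Dom.pf, Mod.nu, (hE.jd 3 f C.W M C.D C.ok hM).2]
    rw [M3KV.PD.ll, pdOf_P, e]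
    rfl
  have ee : ∀ j, (pdOf C L).P (C.W.q (C.W.e (C.D.e j))) = C.P (M.q (M.e j)) := fun j => by
    rw [pdOf_P, pf_e hE hM]
  by_cases h0 : dl C i = 0
  · obtain ⟨j, h1, h2, h3⟩ := hc f M C hM o i V _ _ ho (K.mob_nsmul c L n hp.toMob) hV h0 h
    refine Or.inl ⟨h0, j, h1, h2, fun j' hj => ?_⟩
    rw [(K'.tame i h0).2, ← C.D.q_pb, Mod.q_apply, C.D.pb_e, h3 j' hj]
    split_ifs <;> simp
  obtain ⟨e, he, h1, -, h2⟩ := hD 3 f C.W _ _ i V C.ok hQ hV hNN (el ▸ K'.dl0 i) fun j =>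
    K.mono _ (fun l => by
      show (0 : ℚ) ≤ (C.W.e j (C.D.e l) : ℤ)
      rw [Mod.e_apply]
      split_ifs <;> simp) i
  rw [el] at h2
  obtain ⟨h3, h4⟩ := h2.resolve_left fun h => h0 h.1
  refine Or.inr ⟨e, he, h3, fun j hj => ?_, fun h5 => ?_⟩
  · rw [← ee]
    exact h4 _ fun h => hj (Dc.inj h)
  · exact hR f C.W _ _ i V C.ok hQ hV hNN (by rw [h1, h5]; simp) fun j _ hj => h4 j hj

end Pool.Agent.MP_ee8c61_ag.N3.M3K
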