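import Pool.Agent.MP_ee8c61_ag.N3K.Spec

/-! Polynomials in an element with transcendental residue are units. -/

set_option autoImplicit false

namespace Pool.Agent.MP_ee8c61_ag.N3.M3K

open Pool.Agent.MP_ee8c61_ag.M3

set_option linter.unusedSectionVars false

variable [Base]

open H59 M3 M3E Finset

namespace RTc

theorem cst {N : ℕ} {V : Vl N} (h : Ov V) (c : ℂ) : algebraMap ℂ (KK N) c ∈ V := by
  have := h (algebraMap ℂ (Po N) c)
  rwa [AlgHom.commutes] at this

theorem un_cst {N : ℕ} {V : Vl N} (h : Ov V) {c : ℂ} (hc : c ≠ 0) :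
    Un V (algebraMap ℂ (KK N) c) :=
  ⟨by simpa using hc, cst h c, by rw [← map_inv₀]; exact cst h _⟩

end RTc

theorem rowTc : STc := by
  intro N V τ hV hT p hp
  induction hn : p.natDegree generalizing p with
  | zero =>
    rw [Polynomial.eq_C_of_natDegree_eq_zero hn] at hp ⊢
    rw [Polynomial.aeval_C]
    exact RTc.un_cst hV fun e => hp (by rw [e, map_zero])
  | succ n ih =>
    obtain ⟨a, ha⟩ := IsAlgClosed.exists_root p (by
      rw [Polynomial.degree_eq_natDegree hp, hn]
      exact_mod_cast Nat.succ_ne_zero n)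
    obtain ⟨q, rfl⟩ := Polynomial.dvd_iff_isRoot.2 ha
    have hq : q ≠ 0 := right_ne_zero_of_mul hp
    rw [Polynomial.natDegree_mul (left_ne_zero_of_mul hp) hq, Polynomial.natDegree_X_sub_C] at hn
    rw [map_mul, map_sub, Polynomial.aeval_X, Polynomial.aeval_C]
    exact Un.mul (hT a) (ih q hq (by omega))

end Pool.Agent.MP_ee8c61_ag.N3.M3K
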