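import Pool.Agent.MP_ee8c61_ag.N3K.Spec

/-!
On a dead divisor two ratios of sections are dependent.
-/

namespace Pool.Agent.MP_ee8c61_ag.N3.M3K

open Pool.Agent.MP_ee8c61_ag.M3

set_option linter.unusedSectionVars false

variable [Base]

open H59 M3 M3E Finset

noncomputable section

namespace RWall

variable {N : ℕ}

theorem const_mem {V : Vl N} (h : Ov V) (z : ℂ) : algebraMap ℂ (KK N) z ∈ V :=
  (ip N).commutes z ▸ h _

theorem aeval_mem {V : Vl N} (h : Ov V) {τ : Fin 2 → KK N} (hτ : ∀ i, τ i ∈ V)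
    (Φ : MvPolynomial (Fin 2) ℂ) : MvPolynomial.aeval τ Φ ∈ V := by
  induction Φ using MvPolynomial.induction_on with
  | C a => rw [MvPolynomial.aeval_C]; exact const_mem h a
  | add p q hp hq => rw [map_add]; exact add_mem hp hq
  | mul_X p i hp => rw [map_mul, MvPolynomial.aeval_X]; exact mul_mem hp (hτ i)

theorem ck (d : DV (KK N)) {y : KK N} (h0 : y ≠ 0) (h1 : d.v y = 1) : Ck ⊤ d.O y where
  le := le_top
  mem := Or.inr (by omega)
  non := fun h => by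
    have := (d.un_O.1 h).2
    omega
  un := ⟨h0, ValuationSubring.mem_top _, ValuationSubring.mem_top _⟩
  ord := fun g hg => ⟨d.v g, d.un_O.2 ⟨div_ne_zero hg.1 (zpow_ne_zero _ h0), by
    rw [d.div hg.1 (zpow_ne_zero _ h0), d.zpow, h1, mul_one, sub_self]⟩⟩

theorem rv (hU : SUl) (hT : STr4) {W : Mod 3} {d : DV (KK 3)} {L : W.J → ℤ} {s : KK 3}
    {τ : Fin 2 → KK 3} {f : Po 3} (ho : Ov d.O) (hg : W.Gen d.O L s) (f0 : ip 3 f ≠ 0)
    (f1 : ¬Un d.O (ip 3 f)) (h0 : Bs W ⊤ L s (τ 0)) (h1 : Bs W ⊤ L s (τ 1))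
    (hn : ∀ Φ : MvPolynomial (Fin 2) ℂ, Φ ≠ 0 → MvPolynomial.aeval τ Φ ∉ d.F 1) :
    Rv W ⊤ d.O L s := by
  intro u hu
  obtain ⟨Φ, Ψ, h2, h3, h4⟩ := hT τ (ip 3 f) u f0
  have hτ : ∀ V, Ov V → W.Gen V L s → ∀ i, τ i ∈ V := fun V a b =>
    Fin.forall_fin_two.2 ⟨h0 V a le_top b, h1 V a le_top b⟩
  have hΨ : ∀ V, Ov V → W.Gen V L s → ∀ j, Ψ.coeff j ∈ V := fun V a b j => by
    refine (Algebra.adjoin_le ?_ : _ ≤ VA V (const_mem a)) (h3 j)
    rintro x (rfl | rfl | rfl)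
    · exact hτ V a b 0
    · exact hτ V a b 1
    · exact a f
  have e : ∀ j, (Φ.map (MvPolynomial.aeval τ).toRingHom + Polynomial.C (ip 3 f) * Ψ).coeff j =
      MvPolynomial.aeval τ (Φ.coeff j) + ip 3 f * Ψ.coeff j := fun j => by
    rw [Polynomial.coeff_add, Polynomial.coeff_map, Polynomial.coeff_C_mul]
    rfl
  obtain ⟨β, h5, h6, h7⟩ := hU _ ⊤ d.O {V | Ov V ∧ W.Gen V L s}
    (Φ.map (MvPolynomial.aeval τ).toRingHom + Polynomial.C (ip 3 f) * Ψ) u Φ.natDegree le_top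
    ⟨ho, hg⟩ (fun _ _ => le_top) hu
    (fun j V hV => by
      rw [e]
      exact add_mem (aeval_mem hV.1 (hτ V hV.1 hV.2) _) (mul_mem (hV.1 f) (hΨ V hV.1 hV.2 j)))
    (by
      have h5 := hn _ (Polynomial.leadingCoeff_ne_zero.2 h2)
      have h6 : MvPolynomial.aeval τ Φ.leadingCoeff ≠ 0 := fun h => h5 (Or.inl h)
      have h7 := (aeval_mem ho (hτ _ ho hg) Φ.leadingCoeff).resolve_left h6
      have h8 : ¬(1 ≤ d.v (MvPolynomial.aeval τ Φ.leadingCoeff)) := fun h => h5 (Or.inr h)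
      rw [e, mul_comm]
      exact (d.un_O.2 ⟨h6, by omega⟩).add (mul_mem (hΨ _ ho hg _) (ho f))
        (not_un_mul (hΨ _ ho hg _) (ho f) f1))
    (h4.symm ▸ not_un_zero)
  exact ⟨β, fun V a _ b => h5 V ⟨a, b⟩, h6, fun V a _ b => h7 V ⟨a, b⟩⟩

end RWall

open RWall in
theorem rowWall : OfWall := by
  intro hE hK hU hT hN f M C hM o hA hD m c c' hc hm hb s hs hg τ h0 h1
  by_contra hn
  push Not at hn
  have bM := hE.bas 3 f M hM
  have bW := hE.bas 3 f C.W C.ok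
  have dc := hE.dc 3 f C.W M C.D C.ok hM
  have e1 : c' (C.D.e o) = c o :=
    Int.cast_injective (α := ℚ) ((congrFun hb.eq _).trans (hA (M.q c)))
  have e2 : ∀ j, c' (C.D.e j) ≤ c j := fun j => by
    have h2 := (hK 3 f M C hM).le (M.q c) (by
      rw [hc, ← Nat.cast_smul_eq_nsmul ℚ]
      exact C.smul _ C.mem _ (Nat.cast_pos.2 hm)) (C.D.e j)
    rw [dc.pb_e, ← hb.eq] at h2
    exact Int.cast_le.1 h2
  have e3 : ∀ x g, C.W.Gen (M.v o).O x g ↔ g ≠ 0 ∧ (M.v o).v g = -x (C.D.e o) := fun x g => by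
    rw [← C.D.v o]
    exact bW.gen_v _ x g
  have s1 : s ∈ C.W.H c' := by
    have h2 := hb.H 1
    rw [one_nsmul, one_nsmul] at h2
    exact h2 ▸ hs
  have s2 : C.W.Gen (M.v o).O c' s := (e3 c' s).2 (e1.symm ▸ (bM.gen_v o c s).1 hg)
  obtain ⟨f0, f1⟩ := (bM.gen_v o _ _).1 (bM.gen_f (M.v o).O)
  obtain ⟨b, hb'⟩ := hM.ne o
  obtain ⟨μ, w, hμ, -, hw⟩ := C.amp
  obtain ⟨e₀, he⟩ := hN 3 f C.W C.ok ⊤ (M.v o).O _ c' s (bM.ov_v o)
    (ck (M.v o) (M.η_ne b o) (hM.dv b o hb').2.1) (fun V a _ => s1 V a) s2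
    (rv hU hT (bM.ov_v o) s2 f0 (fun h => by
      have h2 := ((M.v o).un_O.1 h).2
      have h3 := hM.pos o
      rw [h2] at f1
      simp only [Pi.neg_apply, neg_neg, Mod.aa] at f1
      omega) h0 h1 hn) (-C.D.pb w)
  obtain ⟨s₀, h2, h3⟩ := hD
  obtain ⟨n, h4⟩ := exists_nat_gt ((μ : ℚ) / (C.t - s₀))
  obtain ⟨σ, h5, h6⟩ := he (n + e₀ + 1) (by omega)
  have h7 : n ≤ (n + e₀ + 1) * m := le_trans (by omega) (Nat.le_mul_of_pos_right _ hm)
  have h8 : 0 < (n + e₀ + 1) * m := Nat.mul_pos (by omega) hm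
  generalize n + e₀ + 1 = e at h5 h6 h7 h8
  have h9 : (0 : ℚ) < (e * m : ℕ) := Nat.cast_pos.2 h8
  have k1 : σ ∈ M.H (e • c - w) := fun V a => by
    refine bM.oc_mono V _ _ σ (fun j _ => ?_) (dc.push _ (fun V a => h5 V a le_top) V a)
    have := mul_le_mul_of_nonneg_left (e2 j) (Int.natCast_nonneg e)
    simp only [Dom.pf, Pi.add_apply, Pi.neg_apply, Pi.sub_apply, Pi.mul_apply, Pi.natCast_apply,
      nsmul_eq_mul, dc.pb_e]
    omega
  have k2 := h3 (C.t - μ / (e * m : ℕ)) (by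
    rw [lt_sub_comm, div_lt_iff₀ h9]
    rw [div_lt_iff₀ (sub_pos.2 h2)] at h4
    have : (n : ℚ) ≤ (e * m : ℕ) := Nat.cast_le.2 h7
    nlinarith) (sub_lt_self _ (div_pos (Nat.cast_pos.2 hμ) h9)) (e * m) (e • c - w) h8 (by
    rw [M.q_sub, M.q_nsmul, hc, hw]
    funext j
    simp only [Pi.sub_apply, Pi.add_apply, Pi.smul_apply, Pi.mul_apply, Pi.natCast_apply,
      nsmul_eq_mul, smul_eq_mul]
    field_simp
    push_cast
    ring) σ k1
  obtain ⟨k3, k4⟩ := (e3 _ σ).1 h6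
  have k5 := k2.resolve_left k3
  simp only [Pi.add_apply, Pi.neg_apply, Pi.sub_apply, Pi.mul_apply, Pi.natCast_apply,
    nsmul_eq_mul, dc.pb_e, e1] at k4 k5
  omega

end

end Pool.Agent.MP_ee8c61_ag.N3.M3K
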