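import Pool.Agent.MP_ee8c61_ag.N3K.Spec

/-!
Two divisors are separated on a higher model.
-/

namespace Pool.Agent.MP_ee8c61_ag.N3.M3K

open Pool.Agent.MP_ee8c61_ag.M3

set_option linter.unusedSectionVars false

variable [Base]

open H59 M3 M3E Finset

namespace RSep

variable {N : ℕ} {f : Po N} {W W' : Mod N}

/-- The order of a generator along a divisor through the centre. -/
theorem val (hW : W.OK f) (B : Bas f W) (nb : Nb W) {V : Vl N} {c : W.J → ℤ} {j : W.J} {g : KK N}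
    (hg : g ∈ W.H c) (hV : Ov V) (hj : W.Thru V j) (hG : W.Gen V c g) :
    g ≠ 0 ∧ (W.v j).v g = -c j := by
  obtain ⟨b, hb⟩ := hW.cov V hV
  obtain ⟨h1, -, -, h2⟩ := B.in_v b V j hb hj
  have u := hG b hb
  have g0 : g ≠ 0 := left_ne_zero_of_mul u.1
  have e := h2 _ ((nb.H c g).1 hg b) u
  rw [(W.v j).mul _ _ g0 (W.mon_ne b c), B.v_mon b j c h1] at e
  exact ⟨g0, by omega⟩

theorem key (B : Bas f W) (B' : Bas f W') (D : Dom W' W) {c : W'.J → ℤ} {c₁ c₂ : W.J → ℤ}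
    {T : Finset (KK N)} {g : KK N} {i : W.J} (g0 : g ≠ 0) (hv : (W'.v (D.e i)).v g = -c (D.e i))
    (hg : g ∈ W.H c₁) (hT : W.Gens c₂ T) (hc : ∀ g' ∈ T, g' ∈ W'.H c) (lt : c₁ i < c₂ i) :
    False := by
  obtain ⟨g', m, G⟩ := hT.2 _ (B.ov_v i)
  obtain ⟨n0, e⟩ := (B.gen_v i c₂ g').1 G
  have a1 := ((B'.oc_v (D.e i) c g').1 (hc g' m _ (B'.ov_v _))).resolve_left n0
  have a2 := ((B.oc_v i c₁ g).1 (hg _ (B.ov_v i))).resolve_left g0
  rw [D.v] at hv a1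
  omega

end RSep

open RSep

theorem rowSep : OfSep := by
  classical
  intro E N f W hW i i' ne
  have B := E.bas N f W hW
  obtain ⟨w, hw⟩ := hW.amp
  obtain ⟨r₁, h₁⟩ := E.a1 N f W hW w (-W.e i) hw
  obtain ⟨r₂, h₂⟩ := E.a1 N f W hW w (-W.e i') hw
  obtain ⟨T₁, t₁⟩ := B.amp_free _ (h₁ (max r₁ r₂) (le_max_left _ _))
  obtain ⟨T₂, t₂⟩ := B.amp_free _ (h₂ (max r₁ r₂) (le_max_right _ _))
  generalize max r₁ r₂ • w = x at t₁ t₂
  obtain ⟨n, hn⟩ := B.f_pow (x + -W.e i)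
  have mem : ∀ g ∈ insert (ip N f ^ n) (T₁ ∪ T₂), g ∈ W.H (x + -W.e i) ∨ g ∈ W.H (x + -W.e i') :=
    fun g hg => by
      rcases mem_insert.1 hg with rfl | hg
      · exact .inl (hn n le_rfl).1
      · exact (mem_union.1 hg).imp (t₁.1 g) (t₂.1 g)
  have up : ∀ j, ∀ g ∈ W.H (x + -W.e j), g ∈ W.H x := fun j g hg V hV =>
    B.oc_mono V _ _ g (fun l _ => by
      simp only [Pi.add_apply, Pi.neg_apply, Mod.e_apply]
      split_ifs <;> omega) (hg V hV)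
  obtain ⟨W', hW', ⟨D⟩, hc⟩ := E.b1 N f W hW Unit (fun _ => insert (ip N f ^ n) (T₁ ∪ T₂))
    (fun _ => ⟨x, fun g hg => (mem g hg).elim (up i g) (up i' g)⟩)
    fun _ => ⟨n, mem_insert_self _ _⟩
  obtain ⟨c, hc⟩ := hc ()
  have B' := E.bas N f W' hW'
  refine ⟨W', D, hW', fun V hV a a' => ?_⟩
  obtain ⟨g, m, G⟩ := hc.2 V hV
  have v1 := val hW' B' (E.nb N f W' hW') (hc.1 g m) hV a G
  have v2 := val hW' B' (E.nb N f W' hW') (hc.1 g m) hV a' G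
  rcases mem g m with q | q
  · refine key B B' D v1.1 v1.2 q t₂
      (fun g' h => hc.1 g' (mem_insert_of_mem (mem_union_right _ h))) ?_
    simp [Mod.e_apply, ne]
  · refine key B B' D v2.1 v2.2 q t₁
      (fun g' h => hc.1 g' (mem_insert_of_mem (mem_union_left _ h))) ?_
    simp [Mod.e_apply, ne.symm]

end Pool.Agent.MP_ee8c61_ag.N3.M3K
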