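import Pool.Agent.MP_ee8c61_ag.N3K.Spec

/-! Connectedness: a section is cut off along a second set of divisors. -/

namespace Pool.Agent.MP_ee8c61_ag.N3.M3K

open Pool.Agent.MP_ee8c61_ag.M3

set_option linter.unusedSectionVars false

variable [Base]

open H59 M3 M3E Finset
open H59.Sys (ind)

namespace RCn

variable {N : ℕ} {f : Po N} {M : Mod N}

theorem ind_mem {J : Type} {T : Finset J} {j : J} (h : j ∈ T) : ind T j = 1 := if_pos h

theorem ind_not {J : Type} {T : Finset J} {j : J} (h : j ∉ T) : ind T j = 0 := if_neg h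

theorem ind_nonneg {J : Type} (T : Finset J) (j : J) : 0 ≤ ind T j := by
  by_cases h : j ∈ T
  · rw [ind_mem h]; omega
  · rw [ind_not h]

/-- A section on an overlap that vanishes on a divisor. -/
theorem drop (hM : M.OK f) (B : Bas f M) (C : Nb M) (a b : M.ι) (o : M.J) (c : M.J → ℤ) (y : KK N)
    (hy : ∀ V, M.In a V → M.In b V → M.Oc V (c + M.e o) y)
    (h0 : M.In a (M.v o).O → M.In b (M.v o).O → y ∈ (M.v o).F (-c o))
    (V : Vl N) (ha : M.In a V) (hb : M.In b V) : M.Oc V c y := by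
  by_cases hT : M.Thru V o
  · obtain ⟨b1, b2, -, -⟩ := B.in_v b V o hb hT
    have h1 := h0 (B.in_v a V o ha hT).1 b1
    obtain ⟨u, u1, u2, u3⟩ : Lc (M.S.A b) V (y * M.mon b (c + M.e o)) :=
      C.lc b V _ hb fun V' c1 c2 =>
        hy V' (fun g hg => (B.lc a b V ha hb g hg).mem c1 c2) c1 b c1
    have h3 : M.mon b (c + M.e o) ∈ (M.v o).F (c o + 1) :=
      Or.inr (by rw [B.v_mon b o _ b1, Pi.add_apply, M.e_apply, if_pos rfl])
    have h4 := (M.v o).F_mul (b1 u u1) ((M.v o).F_mul h1 h3)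
    rw [show (0 : ℤ) + (-c o + (c o + 1)) = 1 by ring] at h4
    have h5 := hb _ ((hM.dv b o b2).2.2 _ u3 h4)
    have h6 : M.mon b (M.e o) = M.η b o := by
      have := B.mon_e b o 1
      rwa [one_smul, zpow_one] at this
    rw [B.mon_add, h6, ← mul_assoc y, mul_assoc u, mul_inv_cancel_right₀ (M.η_ne _ _),
      mul_comm u, u2.mem_iff] at h5
    exact (B.oc_iff b V c y hb).2 h5
  · refine B.oc_mono V _ _ y (fun l hl => ?_) (hy V ha hb)
    have : l ≠ o := fun e => hT (e ▸ hl)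
    rw [Pi.add_apply, M.e_apply, if_neg this, add_zero]

theorem drops (hM : M.OK f) (B : Bas f M) (C : Nb M) (a b : M.ι) (c : M.J → ℤ) (y : KK N)
    (T : Finset M.J) (hy : ∀ V, M.In a V → M.In b V → M.Oc V (c + ind T) y)
    (h0 : ∀ o ∈ T, M.In a (M.v o).O → M.In b (M.v o).O → y ∈ (M.v o).F (-c o)) :
    ∀ V, M.In a V → M.In b V → M.Oc V c y := by
  induction T using Finset.induction_on with
  | empty =>
    intro V ha hb
    exact B.oc_mono V _ _ y (fun l _ => by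
      rw [Pi.add_apply, ind_not (notMem_empty l), add_zero]) (hy V ha hb)
  | insert o T ho ih =>
    refine ih (drop hM B C a b o _ y (fun V ha hb => B.oc_mono V _ _ y (fun l _ => ?_) (hy V ha hb))
      fun ha hb => ?_) fun i hi => h0 i (mem_insert_of_mem hi)
    · simp only [Pi.add_apply, M.e_apply]
      by_cases e : l = o
      · rw [if_pos e, e, ind_mem (mem_insert_self _ _), ind_not ho]; omega
      · rw [if_neg e]
        by_cases e' : l ∈ T
        · rw [ind_mem e', ind_mem (mem_insert_of_mem e')]; omega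
        · rw [ind_not e', ind_not (by simp [e, e'])]; omega
    · rw [Pi.add_apply, ind_not ho, add_zero]
      exact h0 o (mem_insert_self _ _) ha hb

theorem thru (B : Bas f M) {b : M.ι} {V : Vl N} (hb : M.In b V) (T : Finset M.J)
    (h : ¬Un V (M.mon b (ind T))) : ∃ i ∈ T, M.Thru V i := by
  by_contra! e
  exact h (B.un_of b V _ hb fun j hj => ind_not fun hT => e j hT hj)

/-- A power of the section lies in the ideal of the intersection. -/
theorem rad (B : Bas f M) (C : Nb M)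
    (hCe : ∀ o j V, Ov V → M.Thru V o → M.Thru V j → j ≠ o → ∃ V', M.IsCv o j V' ∧
      ∀ b, M.In b V → M.In b V' ∧ ∀ s ∈ M.S.A b, Un V s → Un V' s)
    {c : M.J → ℤ} {S₁ S₂ : Finset M.J} {σ : KK N} (hd : Disjoint S₁ S₂) (hσ : σ ∈ M.H c)
    (hn : ∀ i ∈ S₁, ∀ j ∈ S₂, ∀ V, M.IsCv i j V → ¬M.Gen V c σ) (b : M.ι) :
    ∃ n : ℕ, ∀ r ≥ n, ∃ x ∈ M.S.A b, ∃ y ∈ M.S.A b,
      x * M.mon b (ind S₁) + y * M.mon b (ind S₂) = (σ * M.mon b c) ^ r := by
  let e1 : M.S.A b := ⟨_, B.mon_mem b _ (ind_nonneg S₁)⟩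
  let e2 : M.S.A b := ⟨_, B.mon_mem b _ (ind_nonneg S₂)⟩
  let s : M.S.A b := ⟨_, (C.H c σ).1 hσ b⟩
  have : s ∈ (Ideal.span {e1, e2}).radical := by
    rw [Ideal.radical_eq_sInf, Ideal.mem_sInf]
    rintro P ⟨h1, hP⟩
    obtain ⟨V, hV, h2⟩ := C.pt b P hP
    obtain ⟨i, hi, hi'⟩ := thru B hV S₁ ((h2 e1).1 (h1 (Ideal.subset_span (by simp))))
    obtain ⟨j, hj, hj'⟩ := thru B hV S₂ ((h2 e2).1 (h1 (Ideal.subset_span (by simp))))
    obtain ⟨V', c1, c2⟩ := hCe i j V (B.ov b V hV) hi' hj'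
      fun e => disjoint_left.1 hd hi (e ▸ hj)
    exact (h2 s).2 fun u => hn i hi j hj V' c1
      ((B.gen_iff b V' c σ (c2 b hV).1).2 ((c2 b hV).2 _ s.2 u))
  obtain ⟨n, h⟩ := this
  refine ⟨n, fun r hr => ?_⟩
  obtain ⟨x, y, e⟩ := Ideal.mem_span_pair.1 (Ideal.pow_mem_of_pow_mem _ h hr)
  exact ⟨x, x.2, y, y.2, congrArg Subtype.val e⟩

end RCn

open RCn

theorem rowCn : OfCn := by
  intro E N f M hM A c S₁ S₂ σ hA hc hd hle hσ hn
  have B := E.bas N f M hM
  have C := E.nb N f M hM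
  have Q := E.aq N f M hM
  choose n hn' using rad B C (E.ce N f M hM) hd hσ hn
  obtain ⟨r, hr⟩ : ∃ r : ℕ, ∀ b, n b ≤ r + 1 := ⟨∑ b, n b, fun b =>
    (single_le_sum (fun _ _ => Nat.zero_le _) (mem_univ b)).trans (Nat.le_succ _)⟩
  choose x hx y hy e using fun b => hn' b (r + 1) (hr b)
  obtain ⟨μ, w, hμ, ⟨κ, _, b, t, ρ, hC⟩, hw⟩ :=
    Q.add A _ hA (Q.of_free _ (B.free_nsmul c r hc))
  have e1 : M.kk + Sys.cl w μ = M.kk + M.up A + r • c := by
    funext j
    have h1 : (w j : ℚ) = μ * (A j + ((r • c) j : ℤ)) := by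
      have := congrFun hw j
      rwa [Mod.q_apply, Pi.smul_apply, nsmul_eq_mul] at this
    have h2 : (μ : ℚ) ≠ 0 := Nat.cast_ne_zero.2 hμ.ne'
    show _ + ⌈(w j : ℚ) / μ⌉ = _ + ⌈A j⌉ + _
    rw [h1, mul_div_cancel_left₀ _ h2, Int.ceil_add_intCast, add_assoc]
  have hK := E.kv N f M hM κ w b t ρ μ hC hμ
  rw [e1] at hK
  refine ⟨r, ?_⟩
  have hL : ∀ j, ((r + 1) • c) j ≤ (M.kk + M.up A + r • c) j + ind S₁ j + ind S₂ j := fun j => by
    have := hle j
    simp only [succ_nsmul, Pi.add_apply] at this ⊢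
    omega
  generalize M.kk + M.up A + r • c = L at hK hL ⊢
  let G : M.ι → KK N := fun a => y a * M.mon a (ind S₂ - (r + 1) • c)
  have k : ∀ a (u : KK N) (T : Finset M.J) V d, u ∈ M.S.A a → M.In a V →
      (∀ j, ((r + 1) • c) j ≤ d j + ind T j) → M.Oc V d (u * M.mon a (ind T - (r + 1) • c)) :=
    fun a u T V d hu ha hj => (B.oc_iff a V d _ ha).2 (by
      rw [mul_assoc, ← B.mon_add]
      refine mul_mem (ha u hu) (B.mem_of a V _ ha fun j _ => ?_)
      have := hj j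
      simp only [Pi.add_apply, Pi.sub_apply]
      omega)
  have G1 : ∀ a V, M.In a V → M.Oc V (L + ind S₁) (G a) := fun a V ha =>
    k a _ S₂ V _ (hy a) ha hL
  have G2 : ∀ a V, M.In a V → M.Oc V (L + ind S₂) (σ ^ (r + 1) - G a) := fun a V ha => by
    have : σ ^ (r + 1) - G a = x a * M.mon a (ind S₁ - (r + 1) • c) := by
      have h1 := e a
      have h2 := M.mon_ne a ((r + 1) • c)
      rw [mul_pow, ← B.mon_nsmul] at h1
      simp only [G, sub_eq_add_neg (ind _), B.mon_add, B.mon_neg]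
      field_simp
      linear_combination -h1
    rw [this]
    refine k a _ S₁ V _ (hx a) ha fun j => ?_
    have := hL j
    simp only [Pi.add_apply]
    omega
  have G3 : ∀ a, ∀ o ∈ S₁, M.In a (M.v o).O → σ ^ (r + 1) - G a ∈ (M.v o).F (-L o) :=
    fun a o ho ha => by
      have := (B.oc_v o _ _).1 (G2 a _ ha)
      rwa [Pi.add_apply, ind_not (disjoint_left.1 hd ho), add_zero] at this
  obtain ⟨h, h1, h2⟩ := hK (fun i j => G (b i) - G (b j)) (fun i j V hV hi hj =>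
    drops hM B C (b i) (b j) L _ S₁
      (fun V ha hb => B.oc_sub V _ _ _ (G1 _ V ha) (G1 _ V hb)) (fun o ho ha hb => by
        have := sub_mem (G3 _ o ho hb) (G3 _ o ho ha)
        rwa [sub_sub_sub_cancel_left] at this)
      V ((hC.gen i V hV).1 hi).1 ((hC.gen j V hV).1 hj).1) fun i j l => sub_add_sub_cancel _ _ _
  obtain ⟨i0, -⟩ := hC.cov ⊤ fun _ => trivial
  have e2 : ∀ i, G (b i0) - h i0 = G (b i) - h i := fun i => by
    have : G (b i0) - G (b i) = h i0 - h i := h2 i0 i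
    linear_combination this
  refine ⟨G (b i0) - h i0, fun V hV => ?_, fun o ho => ?_⟩
  · obtain ⟨i, hi⟩ := hC.cov V hV
    rw [e2 i]
    exact B.oc_sub V _ _ _ (G1 _ V ((hC.gen i V hV).1 hi).1)
      (B.oc_mono V _ _ _ (fun l _ => le_add_of_nonneg_right (ind_nonneg S₁ l)) (h1 i V hV hi))
  · obtain ⟨i, hi⟩ := hC.cov _ (B.ov_v o)
    have a1 := (B.oc_v o _ _).1 (h1 i _ (B.ov_v o) hi)
    have a2 := neg_mem (add_mem (G3 _ o ho ((hC.gen i _ (B.ov_v o)).1 hi).1) a1)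
    rw [e2 i, Pi.add_apply, ind_mem ho, show 1 - (L o + 1) = -L o by ring,
      show G (b i) - h i - σ ^ (r + 1) = -(σ ^ (r + 1) - G (b i) + h i) by ring]
    exact a2

end Pool.Agent.MP_ee8c61_ag.N3.M3K
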