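import Pool.Agent.MP_ee8c61_ag.N3K.Spec

/-!
A function with transcendental residue is a coordinate along a double curve.
-/

namespace Pool.Agent.MP_ee8c61_ag.N3.M3K

open Pool.Agent.MP_ee8c61_ag.M3

set_option linter.unusedSectionVars false

variable [Base]

open H59 M3 M3E Polynomial

namespace RDt

theorem not_un_sub {K : Type} [Field K] {V : ValuationSubring K} {g h : K} (hg : g ∈ V)
    (hh : h ∈ V) (h1 : ¬Un V g) (h2 : ¬Un V h) : ¬Un V (g - h) := by
  rw [sub_eq_add_neg]
  exact not_un_add hg (neg_mem hh) h1 fun e => h2 (by simpa using e.neg)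

theorem D_eta {N : ℕ} (M : Mod N) (a : M.ι) (j : M.J) (l : Fin N) (h : M.S.lab a j ≠ some l) :
    M.S.D a l (M.η a j) = 0 := by
  rcases e : M.S.lab a j with _ | i
  · rw [Mod.η, M.S.η_none a j e, Units.val_one, Derivation.map_one_eq_zero]
  · rw [Mod.η, M.S.η_some a j i e, M.S.D_z, if_neg fun k => h (by rw [e, k])]

theorem chain {K : Type} [Field K] [Algebra ℂ K] (B : Subalgebra ℂ K) (D : Derivation ℂ K K)
    {τ z : K} (hτ : τ ∈ B) (hz : z ∈ B) (h1 : D z = 1) (Φ : Polynomial (Polynomial ℂ)) :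
    (Φ.map (aeval τ).toRingHom).eval z ∈ B ∧ ∃ w ∈ B, D ((Φ.map (aeval τ).toRingHom).eval z) =
      ((derivative Φ).map (aeval τ).toRingHom).eval z + w * D τ := by
  have m : ∀ c : Polynomial ℂ, aeval τ c ∈ B := fun c =>
    Algebra.adjoin_le (S := B) (Set.singleton_subset_iff.2 hτ) (aeval_mem_adjoin_singleton ℂ τ)
  induction Φ using Polynomial.induction_on' with
  | add p q hp hq =>
    obtain ⟨a, w, b, c⟩ := hp
    obtain ⟨a', w', b', c'⟩ := hq
    rw [Polynomial.map_add, eval_add, map_add, map_add, Polynomial.map_add, eval_add, c, c']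
    exact ⟨add_mem a a', w + w', add_mem b b', by ring⟩
  | monomial n c =>
    rw [derivative_monomial, Polynomial.map_monomial, Polynomial.map_monomial, eval_monomial,
      eval_monomial]
    refine ⟨mul_mem (m c) (pow_mem hz n), z ^ n * aeval τ (derivative c),
      mul_mem (pow_mem hz n) (m _), ?_⟩
    simp only [AlgHom.toRingHom_eq_coe, RingHom.coe_coe, Derivation.leibniz, Derivation.leibniz_pow,
      Derivation.map_aeval, h1, smul_eq_mul, nsmul_eq_mul, map_mul, map_natCast]
    ring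

end RDt

open RDt

theorem rowDt : OfDt := by
  intro E hTr hTc f M hM o j V a τ l hc ha ho hj hτ
  have B := E.bas 3 f M hM
  have hD := E.der 3 f M hM
  obtain ⟨jo, hV, hle, tj, hcv⟩ := hc
  have th := B.thru_le V o hV hle
  have p1 : ∀ g, Lc (M.S.A a) V g → ¬Un V g → ¬Un V (M.S.D a l g) := by
    intro g hg hn hu
    have gV := hg.mem' ha
    obtain ⟨s₀, a0, u0, m0⟩ := hg
    obtain ⟨s, a1, h, a2, h', a3, u1, e⟩ := hcv a ha _ m0 (not_un_mul (ha _ a0) gV hn)
    have e1 := congrArg (M.S.D a l) e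
    rw [← mul_assoc, Derivation.leibniz, map_add, Derivation.leibniz _ h, Derivation.leibniz _ h',
      D_eta M a o l ho, D_eta M a j l hj] at e1
    simp only [smul_eq_mul, mul_zero, zero_add] at e1
    have d1 := ha _ (M.S.D_mem a l _ a2)
    have d2 := ha _ (M.S.D_mem a l _ a3)
    have d3 := ha _ (M.S.D_mem a l _ (mul_mem a1 a0))
    have o1 := ha _ (B.η_mem a o)
    have o2 := ha _ (B.η_mem a j)
    have e2 : s * s₀ * M.S.D a l g = M.S.D a l h * M.η a o + M.S.D a l h' * M.η a j -
        M.S.D a l (s * s₀) * g := by linear_combination e1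
    refine not_un_sub (add_mem (mul_mem d1 o1) (mul_mem d2 o2)) (mul_mem d3 gV)
      (not_un_add (mul_mem d1 o1) (mul_mem d2 o2) (not_un_mul d1 o1 (th a ha))
        (not_un_mul d2 o2 (tj a ha))) (not_un_mul d3 gV hn) ?_
    rw [← e2]
    exact (u1.mul u0).mul hu
  have tL : τ ∈ LA (M.S.A a) V := hτ
  refine ⟨p1, fun ht => ?_, fun hu c => ?_⟩
  · by_contra hn
    have zL : M.S.z a l ∈ LA (M.S.A a) V := le_LA (M.S.z_mem a l)
    have z1 : M.S.D a l (M.S.z a l) = 1 := by rw [M.S.D_z, if_pos rfl]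
    have mV : ∀ g ∈ LA (M.S.A a) V, g ∈ V := fun g hg => Lc.mem' hg ha
    have key : ∀ (n : ℕ) (Φ : Polynomial (Polynomial ℂ)), Φ.natDegree = n → Φ ≠ 0 →
        Un V ((Φ.map (aeval τ).toRingHom).eval (M.S.z a l)) := by
      intro n
      induction n using Nat.strong_induction_on with
      | _ n ih =>
        intro Φ hd h0
        by_cases h1 : derivative Φ = 0
        · have h2 := eq_C_of_natDegree_eq_zero (Polynomial.derivative_eq_zero.1 h1)
          rw [h2, Polynomial.map_C, eval_C]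
          exact hTc 3 V τ hV ht _ fun k => h0 (by rw [h2, k, map_zero])
        · have h2 : Φ.natDegree ≠ 0 := fun k => h1 (derivative_of_natDegree_zero k)
          have h3 := ih _ (hd ▸ natDegree_derivative_lt h2) _ rfl h1
          obtain ⟨m1, w, m2, e⟩ := chain (LA (M.S.A a) V) (M.S.D a l) tL zL z1 Φ
          have dτ := (hD.lc a V l τ hτ).mem' ha
          by_contra h4
          refine p1 _ m1 h4 ?_
          rw [e]
          exact h3.add (mul_mem (mV w m2) dτ) (not_un_mul (mV w m2) dτ hn)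
    have ia : M.In a (M.v o).O := fun g hg => hle (ha g hg)
    have uy : Un (M.v o).O (M.η a j) := by
      by_contra k
      exact jo ((B.thru_v o j).1 ((B.thru_iff a _ j ia).2 k))
    obtain ⟨Φ, Ψ, h0, h1, h2⟩ := hTr (M.v o) (M.η a o) τ (M.η a j) (M.S.z a l)
      (hM.dv a o (B.in_v a V o ha th).2.1).2.1 (hle (mV _ tL)) (hle (mV _ zL)) uy
    have yL : M.η a j ∈ LA (M.S.A a) V := le_LA (B.η_mem a j)
    have h3 : Ψ.eval (M.S.z a l) ∈ V := by
      rw [eval_eq_sum_range]
      refine mV _ (Subalgebra.sum_mem _ fun i _ => mul_mem ?_ (pow_mem zL i))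
      refine Algebra.adjoin_le (S := LA (M.S.A a) V) ?_ (h1 i)
      rintro _ (rfl | rfl)
      exacts [tL, yL]
    rw [eval_add, eval_mul, eval_C, mul_comm] at h2
    exact (B.small V o hle _ h2).2 ((key _ Φ rfl h0).add (mul_mem h3 (mV _ yL))
      (not_un_mul h3 (mV _ yL) (tj a ha)))
  · by_contra hn
    refine p1 _ (sub_mem tL ((LA (M.S.A a) V).algebraMap_mem c)) hn ?_
    rwa [map_sub, Derivation.map_algebraMap, sub_zero]

end Pool.Agent.MP_ee8c61_ag.N3.M3K
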