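import Pool.Agent.MP_ee8c61_ag.N3K.Spec

/-!
A curve on two other alive divisors with a nonconstant ratio of sections.
-/

namespace Pool.Agent.MP_ee8c61_ag.N3.M3K

open Pool.Agent.MP_ee8c61_ag.M3

set_option linter.unusedSectionVars false

variable [Base]

open H59 M3 M3E Finset

namespace RHor

section

variable {K : Type} [Field K] [Algebra ℂ K] {A : Subalgebra ℂ K} {V : ValuationSubring K}
  {g h : K}

/-- A unit of the local ring. -/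
def LU (A : Subalgebra ℂ K) (V : ValuationSubring K) (g : K) : Prop := Lc A V g ∧ Un V g

theorem LU.mul (h1 : LU A V g) (h2 : LU A V h) : LU A V (g * h) :=
  ⟨h1.1.mul h2.1, h1.2.mul h2.2⟩

theorem LU.inv (h1 : LU A V g) : LU A V g⁻¹ := ⟨h1.1.inv h1.2, h1.2.inv⟩

theorem LU.pow (h1 : LU A V g) (r : ℕ) : LU A V (g ^ r) := by
  induction r with
  | zero => rw [pow_zero]; exact ⟨Lc.of_mem (one_mem _), un_one⟩
  | succ r ih => rw [pow_succ]; exact ih.mul h1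

theorem LU.zpow (h1 : LU A V g) (n : ℤ) : LU A V (g ^ n) := by
  rcases n with r | r
  · rw [Int.ofNat_eq_natCast, zpow_natCast]; exact h1.pow r
  · rw [zpow_negSucc]; exact (h1.pow _).inv

end

theorem mon_zsmul {N : ℕ} {M : Mod N} (B : Bas1 M) (b : M.ι) (c : M.J → ℤ) (n : ℤ) :
    M.mon b (n • c) = M.mon b c ^ n := by
  rcases n with r | r
  · rw [Int.ofNat_eq_natCast, natCast_zsmul, zpow_natCast, B.mon_nsmul]
  · rw [negSucc_zsmul, zpow_negSucc, B.mon_neg, B.mon_nsmul]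

end RHor

open RHor

theorem rowHor : OfHor := by
  intro E _ _ hKb hMo hNode f M C hM o j j' i Γ hj hj' hjj' ao aj aj' hΓ p p' c₁ c₁' c₂ c₂' s₁ s₂
    n m₁ m₂ h₁ h₂ g₁ g₂ hT
  have hov : Ov Γ := hΓ.2.1
  have hle : Γ ≤ (M.v o).O := by rw [← C.D.v o]; exact hΓ.2.2.1
  have hth : C.W.Thru Γ i := hΓ.2.2.2.1
  obtain ⟨hta, tj, tj', hc⟩ :=
    hNode f M C hM o j j' Γ hj hj' hjj' ao aj aj' hov hle ⟨i, hth, p⟩ ⟨i, hth, p'⟩
  have kb := hKb 3 f M C hM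
  have B := E.bas 3 f M hM
  have nb := E.nb 3 f M hM
  have G₁ := (kb.gen Γ hov hta c₁ c₁' s₁ m₁.eq).1.1 g₁
  have G₂ := (kb.gen Γ hov hta c₂ c₂' s₂ m₂.eq).1.1 g₂
  obtain ⟨a, ha⟩ := hM.cov Γ hov
  obtain ⟨U, hU, hf⟩ := hM.ord a
  have u₁ : LU (M.S.A a) Γ (s₁ * M.mon a c₁) := ⟨Lc.of_mem ((nb.H c₁ s₁).1 h₁ a), G₁ a ha⟩
  have u₂ : LU (M.S.A a) Γ (s₂ * M.mon a c₂) := ⟨Lc.of_mem ((nb.H c₂ s₂).1 h₂ a), G₂ a ha⟩
  have u₃ : LU (M.S.A a) Γ (U : KK 3) :=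
    ⟨Lc.of_mem hU.1, U.ne_zero, ha _ hU.1, by rw [← Units.val_inv_eq_inv_val]; exact ha _ hU.2⟩
  have h0 : M.mon a M.aa ≠ 0 := Units.ne_zero _
  have e : s₁ / s₂ * ip 3 f ^ n * M.mon a (c₁ + -c₂ + -(n • M.aa)) =
      s₁ * M.mon a c₁ * (s₂ * M.mon a c₂)⁻¹ * (U : KK 3) ^ n := by
    rw [B.mon_add, B.mon_add, B.mon_neg, B.mon_neg, mon_zsmul B.toBas1, hf, mul_zpow, mul_inv,
      div_eq_mul_inv]
    have h1 : M.mon a M.aa ^ n * (M.mon a M.aa ^ n)⁻¹ = 1 := mul_inv_cancel₀ (zpow_ne_zero n h0)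
    linear_combination (s₁ * s₂⁻¹ * (U : KK 3) ^ n * M.mon a c₁ * (M.mon a c₂)⁻¹) * h1
  have u := (u₁.mul u₂.inv).mul (u₃.zpow n)
  rw [← e] at u
  have r := hMo f C.W M C.D C.ok hM o j j' i Γ a _ _ hj hj' hjj' hΓ ha tj tj' (hc a ha) u.1 u.2 hT
  change C.W.nu i - C.P M.nu i = 0
  rw [hta i hth M.nu, r, sub_self]

end Pool.Agent.MP_ee8c61_ag.N3.M3K
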