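import Pool.Agent.MP_ee8c61_ag.N3K.Spec

/-!
Near a tame closed point the ample model is the given model.
-/

namespace Pool.Agent.MP_ee8c61_ag.N3.M3K

open Pool.Agent.MP_ee8c61_ag.M3

set_option linter.unusedSectionVars false

variable [Base]

open H59 M3 M3E Finset

namespace RIso

variable {N : ℕ} {f : Po N}

theorem cst_mem {V : Vl N} (hV : Ov V) (κ : ℂ) : algebraMap ℂ (KK N) κ ∈ V :=
  (ov_iff.1 hV).1 κ

theorem cst_un {V : Vl N} (hV : Ov V) {κ : ℂ} (h : κ ≠ 0) : Un V (algebraMap ℂ (KK N) κ) :=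
  ⟨(map_ne_zero _).2 h, cst_mem hV κ, by rw [← map_inv₀]; exact cst_mem hV _⟩

theorem gen_un {W : Mod N} (ok : W.OK f) (B : Bas f W) {V : Vl N} (hV : Ov V) {c : W.J → ℤ}
    {s : KK N} (hs : W.Gen V c s) (g : KK N) : W.Gen V c g ↔ Un V (g / s) := by
  obtain ⟨b, hb⟩ := ok.cov V hV
  have h1 := hs b hb
  have h0 : s ≠ 0 := left_ne_zero_of_mul h1.1
  have e : g * W.mon b c = g / s * (s * W.mon b c) := by field_simp
  rw [B.gen_iff b V c g hb, e]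
  exact ⟨fun h => h.cancel h1, fun h => h.mul h1⟩

theorem gen_ne {W : Mod N} (ok : W.OK f) {V : Vl N} (hV : Ov V) {c : W.J → ℤ}
    {s : KK N} (hs : W.Gen V c s) : s ≠ 0 := by
  obtain ⟨b, hb⟩ := ok.cov V hV
  exact left_ne_zero_of_mul (hs b hb).1

/-- A section that generates at `V` generates at `Γ`. -/
theorem rev {M : Mod N} {C : Ch f M} (ok : M.OK f) (BW : Bas f C.W) (nM : Ng M) (nW : Ng C.W)
    (ka : Ka C) (kb : Kb C) {c : M.J → ℤ} {L : C.W.J → ℤ} {V Γ : Vl N} (hm : Mob C c L)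
    (hV : Ov V) (hΓ : Ov Γ) (ht : Tame C V)
    (hκ : ∀ a, M.In a V → ∀ g, Lc (M.S.A a) V g → ∃ κ : ℂ, ¬Un V (g - algebraMap ℂ (KK N) κ))
    (hT : Thr C.W L V Γ) (n : ℕ) {σ : KK N} (hσ : σ ∈ C.W.H (n • L))
    (hg : C.W.Gen V (n • L) σ) : C.W.Gen Γ (n • L) σ := by
  have hn := ka.mob_nsmul c L n hm
  obtain ⟨s, hs, hsΓ⟩ := nW.ex _ Γ hn.free hΓ
  have hsV := hT n s hs hsΓ
  have s0 : s ≠ 0 := gen_ne C.ok hV hsV
  obtain ⟨a, ha⟩ := ok.cov V hV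
  obtain ⟨κ, hk⟩ := hκ a ha _ (nM.lc V (n • c) a s (by rw [hm.H]; exact hs) σ
    (by rw [hm.H]; exact hσ) ha ((kb.gen V hV ht _ _ s hn.eq).1.1 hsV))
  have k0 : κ ≠ 0 := by
    rintro rfl
    rw [map_zero, sub_zero] at hk
    exact hk ((gen_un C.ok BW hV hsV σ).1 hg)
  have hτ : σ - algebraMap ℂ (KK N) κ * s ∈ C.W.H (n • L) := fun V' hV' =>
    BW.oc_sub V' _ _ _ (hσ V' hV') fun b hb => by
      rw [mul_assoc]
      exact mul_mem (cst_mem hV' κ) (hs V' hV' b hb)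
  have e : (σ - algebraMap ℂ (KK N) κ * s) / s = σ / s - algebraMap ℂ (KK N) κ := by field_simp
  have h1 : ¬Un Γ (σ / s - algebraMap ℂ (KK N) κ) := fun h =>
    hk (e ▸ (gen_un C.ok BW hV hsV _).1 (hT n _ hτ ((gen_un C.ok BW hΓ hsΓ _).2 (e ▸ h))))
  have h2 : σ / s - algebraMap ℂ (KK N) κ ∈ Γ := e ▸ (BW.oc_div Γ _ _ s hΓ hsΓ).1 (hτ Γ hΓ)
  have h3 := (cst_un hΓ k0).add h2 h1
  rw [add_sub_cancel] at h3
  exact (gen_un C.ok BW hΓ hsΓ σ).2 h3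

end RIso

open RIso in
theorem rowIso : OfIso := by
  intro E hNg hKa hKb N f M C ok c L V Γ hp hV hΓ ht hκ hT
  have BM := E.bas N f M ok
  have BW := E.bas N f C.W C.ok
  have nM := hNg N f M ok
  have nW := hNg N f C.W C.ok
  have ka := hKa N f M C ok
  have kb := hKb N f M C ok
  have dc := E.dc N f C.W M C.D C.ok ok
  have hr := fun n σ => rev (σ := σ) ok BW nM nW ka kb hp.toMob hV hΓ ht hκ hT n
  obtain ⟨w, κ, _, b, t, ρ, ac⟩ := ok.amp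
  obtain ⟨i, hi⟩ := ac.cov V hV
  have hb : M.In (b i) V := ((ac.gen i V hV).1 hi).1
  obtain ⟨K, hK⟩ := ka.far _ hp.inn (-M.q w)
  obtain ⟨m, c₂, c₂', m0, hq, hm⟩ := ka.mob _ (hK K le_rfl).2
  obtain ⟨τ, hτ, hτV⟩ := nW.ex _ V hm.free hV
  have hτM : τ ∈ M.H c₂ := by
    have h := hm.H 1
    rw [one_smul, one_smul] at h
    rwa [h]
  have hτG : M.Gen V c₂ τ := (kb.gen V hV ht _ _ τ hm.eq).1.1 hτV
  have hc : ∀ e : ℕ, (m * e) • w + e • c₂ = (e * m * K) • c := fun e => by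
    have h' : c₂ = m • (K • c + -w) := M.q_inj (by
      rw [hq, M.q_nsmul, M.q_add, M.q_nsmul, M.q_neg])
    rw [h']
    module
  have key : ∀ g ∈ M.S.A (b i), g ∈ Γ ∧ (Un V g ↔ Un Γ g) := by
    intro g hg
    obtain ⟨e, he⟩ := E.clr N f M ok κ w b t ρ ac i 0 g fun V' hV' h b' _ => by
      rw [BM.mon_zero, mul_one]
      exact ((ac.gen i V' hV').1 h).1 g hg
    have h1 := nM.mul _ _ _ (he (m * e) (Nat.le_mul_of_pos_left e m0)) _ (nM.pow _ e τ hτM)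
    have h0 := nM.mul _ _ _ (nM.pow _ (m * e) _ (ac.sec i)) _ (nM.pow _ e τ hτM)
    have g0 := BM.gen_mul V _ _ _ _ (BM.gen_pow V _ _ (m * e) hi) (BM.gen_pow V _ _ e hτG)
    rw [add_zero, hc, hp.H] at h1
    rw [hc, hp.H] at h0
    rw [hc] at g0
    have g1 := (kb.gen V hV ht _ _ _ (ka.mob_nsmul c L (e * m * K) hp.toMob).eq).1.2 g0
    have g2 := hr _ _ h0 g1
    have s0 := gen_ne C.ok hV g1
    have e1 : ρ i ^ (m * e) * g * τ ^ e / (ρ i ^ (m * e) * τ ^ e) = g := by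
      rw [mul_right_comm, mul_div_cancel_left₀ _ s0]
    refine ⟨e1 ▸ (BW.oc_div Γ _ _ _ hΓ g2).1 (h1 Γ hΓ), fun h => ?_, fun h => ?_⟩
    · exact e1 ▸ (gen_un C.ok BW hΓ g2 _).1
        (hr _ _ h1 ((gen_un C.ok BW hV g1 _).2 (e1.symm ▸ h)))
    · exact e1 ▸ (gen_un C.ok BW hV g1 _).1
        (hT _ _ h1 ((gen_un C.ok BW hΓ g2 _).2 (e1.symm ▸ h)))
  have hbΓ : M.In (b i) Γ := fun g hg => (key g hg).1
  refine ⟨fun j hj => ka.one _ j hp.inn ?_, fun a ha => ?_⟩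
  · obtain ⟨σ, hσ, hσV⟩ := nW.ex _ V hp.free hV
    have h1 := hr 1 σ (by rwa [one_smul]) (by rwa [one_smul])
    rw [one_smul] at h1
    have hσM : σ ∈ M.H c := by
      have h := hp.H 1
      rw [one_smul, one_smul] at h
      rwa [h]
    have h2 : M.Gen V c σ := (kb.gen V hV ht _ _ σ hp.eq).1.1 hσV
    have h3 : M.Gen Γ c σ := (BM.gen_iff _ Γ c σ hbΓ).2
      ((key _ (((E.nb N f M ok).H c σ).1 hσM (b i))).2.1 (h2 _ hb))
    have h4 := nW.val Γ _ j σ hσ hΓ hj h1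
    have h5 := nW.val Γ _ j σ (by rw [dc.H]; exact hσM) hΓ hj ((dc.gen Γ c σ hΓ).1 h3)
    rw [← hp.eq, ← C.D.q_pb, Mod.q_apply, Mod.q_apply, neg_inj.1 (h4.symm.trans h5)]
  · have h1 : ∀ g ∈ M.S.A a, g ∈ Γ ∧ (Un V g ↔ Un Γ g) := fun g hg => by
      obtain ⟨s, hs, hsV, hsg⟩ := BM.lc a (b i) V ha hb g hg
      have hsΓ := (key s hs).2.1 hsV
      rw [mul_comm] at hsg
      exact ⟨hsΓ.mem_iff.1 (key _ hsg).1, fun h => ((key _ hsg).2.1 (h.mul hsV)).cancel hsΓ,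
        fun h => ((key _ hsg).2.2 (h.mul hsΓ)).cancel hsV⟩
    exact ⟨fun g hg => (h1 g hg).1, fun g hg => (h1 g hg).2⟩

end Pool.Agent.MP_ee8c61_ag.N3.M3K
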