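import Pool.Agent.MP_ee8c61_ag.N3K.Spec

/-! Clearing denominators along the refinements of a valuation ring. -/

namespace Pool.Agent.MP_ee8c61_ag.N3.M3K

open Pool.Agent.MP_ee8c61_ag.M3

set_option linter.unusedSectionVars false

variable [Base]

open H59 M3 M3E Finset

noncomputable section

namespace RLo

variable {K : Type} [Field K]

theorem up {V : ValuationSubring K} {σ x : K} (hσ : σ ∈ V) {e e' : ℕ} (h : e ≤ e')
    (hx : σ ^ e * x ∈ V) : σ ^ e' * x ∈ V := by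
  obtain ⟨d, rfl⟩ := Nat.exists_eq_add_of_le h
  rw [add_comm, pow_add, mul_assoc]
  exact mul_mem (pow_mem hσ _) hx

/-- The elements that lie in all rings of the family after multiplication by a power of `σ`. -/
def TT (𝒱 : Set (ValuationSubring K)) (σ : K) (hσ : ∀ V ∈ 𝒱, σ ∈ V) : Subring K where
  carrier := {x | ∃ e : ℕ, ∀ V ∈ 𝒱, σ ^ e * x ∈ V}
  mul_mem' := fun {x y} ⟨e, he⟩ ⟨e', he'⟩ => ⟨e + e', fun V hV => by
    rw [pow_add, mul_mul_mul_comm]
    exact mul_mem (he V hV) (he' V hV)⟩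
  one_mem' := ⟨0, fun V _ => by simp⟩
  add_mem' := fun {x y} ⟨e, he⟩ ⟨e', he'⟩ => ⟨e + e', fun V hV => by
    rw [mul_add]
    exact add_mem (up (hσ V hV) (Nat.le_add_right _ _) (he V hV))
      (up (hσ V hV) (Nat.le_add_left _ _) (he' V hV))⟩
  zero_mem' := ⟨0, fun V _ => by simp⟩
  neg_mem' := fun {x} ⟨e, he⟩ => ⟨e, fun V hV => by
    rw [mul_neg]
    exact neg_mem (he V hV)⟩

theorem closed (𝒱 : Set (ValuationSubring K)) (σ : K) (hσ : ∀ V ∈ 𝒱, σ ∈ V) :
    IsIntegrallyClosedIn (TT 𝒱 σ hσ) K := by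
  refine isIntegrallyClosedIn_iff.2 ⟨Subtype.val_injective, fun {x} ⟨p, hp, hx⟩ => ?_⟩
  choose e he using fun i : ℕ => (p.coeff i).2
  refine ⟨⟨x, (range p.natDegree).sup e, fun V hV => ?_⟩, rfl⟩
  set t := σ ^ (range p.natDegree).sup e with ht
  have htV : t ∈ V := pow_mem (hσ V hV) _
  let q := (p.map (algebraMap (TT 𝒱 σ hσ) K)).scaleRoots t
  have hm : (p.map (algebraMap (TT 𝒱 σ hσ) K)).Monic := hp.map _
  have hq : q.Monic := (Polynomial.monic_scaleRoots_iff _).2 hm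
  have hd : (p.map (algebraMap (TT 𝒱 σ hσ) K)).natDegree = p.natDegree := hp.natDegree_map _
  have hl : q ∈ Polynomial.lifts (algebraMap V K) := by
    refine (Polynomial.lifts_iff_coeff_lifts _).2 fun i => ?_
    suffices h : q.coeff i ∈ V from ⟨⟨_, h⟩, rfl⟩
    rw [Polynomial.coeff_scaleRoots, hd, Polynomial.coeff_map]
    rcases lt_trichotomy i p.natDegree with h | h | h
    · obtain ⟨d, hd'⟩ := Nat.exists_eq_succ_of_ne_zero (Nat.sub_ne_zero_of_lt h)
      rw [hd', pow_succ', ← mul_assoc, mul_comm _ t]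
      exact mul_mem (up (hσ V hV) (le_sup (mem_range.2 h)) (he i V hV)) (pow_mem htV _)
    · rw [h, hp.coeff_natDegree, map_one, one_mul]
      exact pow_mem htV _
    · rw [Polynomial.coeff_eq_zero_of_natDegree_lt h, map_zero, zero_mul]
      exact zero_mem _
  obtain ⟨r, hr, -, hrm⟩ := Polynomial.lifts_and_natDegree_eq_and_monic hl hq
  have hi : IsIntegral V (t * x) := ⟨r, hrm, by
    rw [← Polynomial.eval_map, hr, Polynomial.scaleRoots_eval_mul, Polynomial.eval_map, hx,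
      mul_zero]⟩
  obtain ⟨y, hy⟩ := (IsIntegrallyClosed.isIntegral_iff (R := V) (K := K)).1 hi
  rw [← hy]
  exact y.2

theorem key (A : Set K) (V₀ : ValuationSubring K) (σ γ : K) (h0 : σ ≠ 0)
    (hσ : ∀ V ∈ {V : ValuationSubring K | V ≤ V₀ ∧ ∀ a ∈ A, a ∈ V}, σ ∈ V) (hγ : γ ∈ V₀)
    (h : ∀ V : ValuationSubring K, V ≤ V₀ → (∀ a ∈ A, a ∈ V) → Un V σ → γ ∈ V) :
    ∃ e : ℕ, ∀ V : ValuationSubring K, V ≤ V₀ → (∀ a ∈ A, a ∈ V) → σ ^ e * γ ∈ V := by
  have := closed _ σ hσ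
  suffices H : γ ∈ TT _ σ hσ from H.imp fun e he V h1 h2 => he V ⟨h1, h2⟩
  by_contra hn
  obtain ⟨V, hV, hx⟩ := Subring.exists_le_valuationSubring_of_isIntegrallyClosedIn hn
  have hV0 : ∀ x, (∀ V' : ValuationSubring K, V' ≤ V₀ → (∀ a ∈ A, a ∈ V') → x ∈ V') → x ∈ V :=
    fun x hx => hV ⟨0, fun V' hV' => by simpa using hx V' hV'.1 hV'.2⟩
  refine hx ?_
  by_cases hle : V ≤ V₀
  · exact h V hle (fun a ha => hV0 a fun V' _ h' => h' a ha)
      ⟨h0, hV0 σ fun V' h1 h2 => hσ V' ⟨h1, h2⟩,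
        hV ⟨1, fun V' _ => by rw [pow_one, mul_inv_cancel₀ h0]; exact one_mem _⟩⟩
  · obtain ⟨x, hxV, hx0⟩ := SetLike.not_le_iff_exists.1 hle
    have hx1 : x ≠ 0 := fun e => hx0 (e ▸ zero_mem _)
    have h1 : γ * x⁻¹ ∈ V := hV0 _ fun V' h1 _ => by
      refine (V'.mem_or_inv_mem _).resolve_right fun h2 => ?_
      by_cases hg : γ = 0
      · exact hx (hg ▸ zero_mem _)
      · have := mul_mem hγ (h1 h2)
        rw [mul_inv, inv_inv, mul_inv_cancel_left₀ hg] at this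
        exact hx0 this
    have := mul_mem h1 hxV
    rwa [inv_mul_cancel_right₀ hx1] at this

end RLo

theorem rowLo : OfLo := by
  intro hE N f W hW V₀ L c s g hs hG h
  have B := hE.bas N f W hW
  have hb : ∀ b : W.ι, ∃ e : ℕ, ∀ V, V ≤ V₀ → W.In b V →
      (s * W.mon b L) ^ e * (g * W.mon b c) ∈ V := by
    intro b
    by_cases h0 : W.In b V₀
    · exact RLo.key (A := (W.S.A b : Set (KK N))) V₀ (s * W.mon b L) (g * W.mon b c) (hG b h0).1
        (fun V hV => hs V (B.ov b V fun a ha => hV.2 a ha) hV.1 b fun a ha => hV.2 a ha)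
        (h V₀ (B.ov b V₀ h0) le_rfl hG b h0)
        fun V h1 h2 h3 => h V (B.ov b V fun a ha => h2 a ha) h1
          ((B.gen_iff b V L s fun a ha => h2 a ha).2 h3) b fun a ha => h2 a ha
    · exact ⟨0, fun V h1 h2 => absurd (fun a ha => h1 (h2 a ha)) h0⟩
  choose e he using hb
  refine ⟨univ.sup e, fun n hn V hV h1 b h2 => ?_⟩
  rw [B.mon_add, B.mon_nsmul, mul_mul_mul_comm, ← mul_pow]
  exact RLo.up (hs V hV h1 b h2) ((le_sup (mem_univ b)).trans hn) (he b V h1 h2)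

end

end Pool.Agent.MP_ee8c61_ag.N3.M3K
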