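import Pool.Agent.MP_ee8c61_ag.N3K.Spec

/-! A point of the image of a divisor on a second divisor lies on the image of a curve. -/

namespace Pool.Agent.MP_ee8c61_ag.N3.M3K

open Pool.Agent.MP_ee8c61_ag.M3

set_option linter.unusedSectionVars false

variable [Base]

open H59 M3 M3E Finset
open H59.Sys (ind)

namespace RNa

theorem small {J : Type} [Finite J] (x t : J → ℚ) (ht : ∀ i, 0 < t i) :
    ∃ ε : ℚ, 0 < ε ∧ ∀ i, ε * x i < t i := by
  obtain ⟨b, hb⟩ := (Set.finite_range fun i => x i / t i).bddAbove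
  have h0 : 0 < |b| + 1 := by positivity
  refine ⟨(|b| + 1)⁻¹, inv_pos.2 h0, fun i => ?_⟩
  have h1 : x i / t i < |b| + 1 := by
    have := hb ⟨i, rfl⟩
    have := le_abs_self b
    linarith
  rw [div_lt_iff₀ (ht i)] at h1
  rwa [inv_mul_lt_iff₀ h0]

variable {N : ℕ} {f : Po N} {M : Mod N} {C : Ch f M}

theorem del_nonneg (ka : Ka C) (kb : Kb C) (I : Finset M.J) : 0 ≤ del C I := by
  have e : M.nu = M.q (M.kk + ind I) + fun j => if j ∈ I then 0 else 1 := funext fun j => by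
    by_cases h : j ∈ I <;> simp [Mod.nu, Mod.kk, ind, h]
  have h1 := ka.mono (fun j => if j ∈ I then 0 else 1) fun j => by
    dsimp only
    split_ifs <;> simp
  have h2 := kb.dl0
  rw [dl, e, map_add] at h2
  intro i
  have a := h1 i
  have b := h2 i
  simp only [del, Pi.sub_apply, Pi.add_apply, Pi.zero_apply] at a b ⊢
  linarith

theorem del_alive (hk : ∀ j, C.W.k (C.D.e j) = M.k j) (I : Finset M.J) {j : M.J}
    (h : C.Alive j) : del C I (C.D.e j) = ((1 - ind I j : ℤ) : ℚ) := by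
  rw [del, Pi.sub_apply, h]
  simp [Mod.nu, Mod.kk, hk]

end RNa

theorem rowNa : OfNa := by
  classical
  intro E hG hKa hKb hCn hAv N f M C hM o j c L Γ hoj ao aj hp hΓ hle hpv
  have ka := hKa N f M C hM
  have kb := hKb N f M C hM
  have B := E.bas N f C.W C.ok
  have Q := E.aq N f C.W C.ok
  have hinj := (E.dc N f C.W M C.D C.ok hM).inj
  have hk := (E.jd N f C.W M C.D C.ok hM).2
  by_contra hno
  have d0 := RNa.del_nonneg ka kb {o, j}
  obtain ⟨w, hw⟩ := C.ok.amp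
  have hw' := Q.of_amp w hw
  obtain ⟨Ξ, hΞ⟩ : ∃ Ξ, Ξ = C.P (C.D.pf (C.W.q w)) - C.W.q w := ⟨_, rfl⟩
  have x1 : ∀ j', C.Alive j' → Ξ (C.D.e j') = 0 := fun j' h => by
    rw [hΞ, Pi.sub_apply, h]
    exact sub_self _
  obtain ⟨ε, e0, e1⟩ := RNa.small Ξ (fun i => if 0 < del C {o, j} i then del C {o, j} i else 1)
    fun i => by
      split_ifs with h
      exacts [h, one_pos]
  obtain ⟨r₀, hr⟩ := ka.amp c L hp (-M.q (M.kk + ind {o, j}) - ε • C.D.pf (C.W.q w))
  obtain ⟨n, hn, σ, s1, s2, s3⟩ := hAv N f C.W C.ok L Γ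
    {V | ∃ k, C.W.IsCv (C.D.e o) k V ∧ del C {o, j} k = 0} hp.free hΓ
    (((E.cv N f C.W C.ok).fin (C.D.e o)).subset fun V ⟨k, h, _⟩ => ⟨k, h⟩)
    (fun V ⟨k, h, h'⟩ => ⟨h.2.1, fun h3 => hno ⟨k, V, h, h', h3⟩⟩) r₀
  have hA := hr n hn _ (Q.smul _ ε e0 hw')
  obtain ⟨A, eA⟩ : ∃ A, A = n • C.W.q L +
      C.P (-M.q (M.kk + ind {o, j}) - ε • C.D.pf (C.W.q w)) + ε • C.W.q w := ⟨_, rfl⟩
  rw [← eA] at hA
  have hu : ∀ i, (C.W.kk + C.W.up A) i = n * L i + ⌈del C {o, j} i - ε * Ξ i⌉ - 1 := fun i => by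
    have : A i = del C {o, j} i - ε * Ξ i + ((n * L i - C.W.k i - 1 : ℤ) : ℚ) := by
      rw [eA, map_sub, map_neg, map_smul, hΞ]
      simp only [del, Mod.nu, Pi.add_apply, Pi.sub_apply, Pi.neg_apply, Pi.smul_apply,
        Mod.q_apply, smul_eq_mul, nsmul_eq_mul, Pi.mul_apply, Pi.natCast_apply]
      push_cast
      ring
    rw [Pi.add_apply, Mod.up, this, Int.ceil_add_intCast, Mod.kk]
    ring
  obtain ⟨r, g, g1, g2⟩ := hCn N f C.W C.ok A (n • L) {C.D.e o}
    ((univ.filter fun i => del C {o, j} i = 0).erase (C.D.e o)) σ hA (B.free_nsmul L n hp.free)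
    (disjoint_singleton_left.2 (notMem_erase _ _)) (fun i => by
      have h1 := e1 i
      rw [Pi.add_apply, Pi.add_apply, hu, Pi.smul_apply, nsmul_eq_mul]
      by_cases h : 0 < del C {o, j} i
      · rw [if_pos h] at h1
        have : 0 < ⌈del C {o, j} i - ε * Ξ i⌉ := Int.ceil_pos.2 (by linarith)
        simp only [ind]
        split_ifs <;> omega
      · rw [if_neg h] at h1
        have h2 : del C {o, j} i = 0 := le_antisymm (not_lt.1 h) (d0 i)
        have : -1 < ⌈del C {o, j} i - ε * Ξ i⌉ := Int.lt_ceil.2 (by push_cast; linarith)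
        by_cases h3 : i = C.D.e o <;> simp [ind, h2, h3] at this ⊢ <;> omega) s1
    (fun i hi k hk' V hV => s3 V ⟨k, mem_singleton.1 hi ▸ hV, (mem_filter.1 (mem_erase.1 hk').2).2⟩)
  obtain ⟨Λ, eΛ⟩ : ∃ Λ, Λ = C.W.kk + C.W.up A + r • n • L + ind {C.D.e o} := ⟨_, rfl⟩
  rw [← eΛ] at g1 g2
  have hΛ : ∀ j', C.Alive j' → Λ (C.D.e j') = ((r + 1) • n • L) (C.D.e j') - M.e j j' :=
    fun j' h => by
      rw [eΛ, Pi.add_apply, Pi.add_apply, hu, x1 j' h, RNa.del_alive hk _ h, mul_zero, sub_zero,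
        Int.ceil_intCast, Mod.e_apply]
      simp only [Pi.smul_apply, nsmul_eq_mul, Pi.mul_apply, Pi.natCast_apply, ind, mem_insert,
        mem_singleton, hinj.eq_iff]
      push_cast
      by_cases h1 : j' = o
      · rw [if_pos (Or.inl h1), if_pos h1, if_neg (h1 ▸ hoj)]
        ring
      · by_cases h2 : j' = j
        · rw [if_pos (Or.inr h2), if_neg h1, if_pos h2]
          ring
        · rw [if_neg (not_or.2 ⟨h1, h2⟩), if_neg h1, if_neg h2]
          ring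
  have hP : C.P (M.q (C.D.pf Λ)) = C.W.q ((r + 1) • n • L) - C.P (M.q (M.e j)) := by
    have e : C.W.q ((r + 1) • n • L) = C.P ((r + 1) • n • M.q c) := by
      rw [map_nsmul, map_nsmul, Mod.q_nsmul, Mod.q_nsmul, hp.eq]
    rw [e, ← map_sub]
    refine ka.congr _ _ fun j' h => ?_
    rw [Pi.sub_apply, ← h ((r + 1) • n • M.q c), ← e, Mod.q_apply, Mod.q_apply, Mod.q_apply,
      ← Int.cast_sub, ← hΛ j' h]
    rfl
  obtain ⟨i, hi, hi'⟩ := hpv
  have p0 := ka.mono (M.q (M.e j)) fun j' => by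
    rw [Mod.q_apply, Mod.e_apply]
    split_ifs <;> simp
  have g3 : g ∈ C.W.H ((r + 1) • n • L - C.W.e i) := ka.excH Λ _ (fun i' => by
    have := p0 i'
    rw [hP, Pi.sub_apply, Pi.sub_apply, Mod.q_apply, Mod.e_apply, Int.cast_sub]
    rw [Pi.zero_apply] at this
    split_ifs with h
    · subst h
      push_cast
      linarith
    · push_cast
      linarith) g1
  refine (hG N f C.W C.ok).sub Γ _ i g hΓ hi (g3 Γ hΓ)
    (B.gen_small Γ (C.D.e o) _ (σ ^ (r + 1)) g (C.D.v o ▸ hle) (B.gen_pow Γ _ σ (r + 1) s2) ?_)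
  have := g2 _ (mem_singleton_self _)
  rwa [hΛ o ao, Mod.e_apply, if_neg hoj, sub_zero] at this

end Pool.Agent.MP_ee8c61_ag.N3.M3K
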