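import Pool.Agent.MP_ee8c61_ag.N3K.Spec

/-!
Curves that lie on no other divisor are not contracted.
-/

namespace Pool.Agent.MP_ee8c61_ag.N3.M3K

open Pool.Agent.MP_ee8c61_ag.M3

set_option linter.unusedSectionVars false

variable [Base]

open H59 M3 M3E Finset

theorem rowNbr : OfNbr := by
  intro E hg N f W hW o L Γ b τ hB hb hT hτ hc
  obtain ⟨μ, F, w, Ξ, hF, ⟨κ, _, bb, t, ρ, hA⟩, hΞ, hΞo, hμ⟩ := hB
  have B := E.bas N f W hW
  have G := hg N f W hW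
  have ov := B.ov b Γ hb
  obtain ⟨l, hl⟩ := hA.cov Γ ov
  have hin := ((hA.gen l Γ ov).1 hl).1
  have h1 : Lc (W.S.A (bb l)) Γ τ := by
    obtain ⟨s, s1, s2, s3⟩ := hτ
    have q := ((B.lc b (bb l) Γ hb hin s s1).inv s2).mul (B.lc b (bb l) Γ hb hin _ s3)
    rwa [inv_mul_cancel_left₀ s2.1] at q
  obtain ⟨s, s1, s2, s3⟩ := h1
  have cl : ∀ g ∈ W.S.A (bb l), ∃ e0 : ℕ, ∀ e ≥ e0, ρ l ^ e * g ∈ W.H (e • w + 0) := by
    intro g hgA
    refine E.clr N f W hW κ w bb t ρ hA l 0 g fun V hV hG => ?_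
    have i := ((hA.gen l V hV).1 hG).1
    rw [B.oc_iff (bb l) V 0 g i, B.mon_zero, mul_one]
    exact i g hgA
  obtain ⟨e1, h1⟩ := cl s s1
  obtain ⟨e2, h2⟩ := cl _ s3
  obtain ⟨σ, σ1, σ2⟩ := G.ex F Γ hF ov
  have h3 := h1 (e1 + e2) (Nat.le_add_right _ _)
  have h4 := h2 (e1 + e2) (Nat.le_add_left _ _)
  generalize e1 + e2 = e at h3 h4
  have eq : (e * μ) • L = e • F + (e • w + 0) + e • Ξ := by
    rw [mul_smul, hμ, smul_add, smul_add, add_zero]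
  have le : e • F + (e • w + 0) ≤ (e * μ) • L := by
    rw [eq]
    exact le_add_of_nonneg_right (nsmul_nonneg hΞ e)
  have g0 : W.Gen Γ 0 s := by
    rw [B.gen_iff (bb l) Γ 0 s hin, B.mon_zero, mul_one]
    exact s2
  have g1 : W.Gen Γ ((e * μ) • L) (σ ^ e * (ρ l ^ e * s)) := by
    refine B.gen_congr Γ _ _ _ (fun j hj => ?_)
      (B.gen_mul Γ _ _ _ _ (B.gen_pow Γ F σ e σ2) (B.gen_mul Γ _ _ _ _ (B.gen_pow Γ w _ e hl) g0))
    rw [eq, hT j hj, Pi.add_apply _ (e • Ξ), Pi.smul_apply e Ξ, hΞo, smul_zero]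
    exact (add_zero _).symm
  refine ⟨e * μ, _, G.mono _ _ le (G.mul _ _ _ (G.pow F e σ σ1) _ h3), _,
    G.mono _ _ le (G.mul _ _ _ (G.pow F e σ σ1) _ h4), g1, ?_⟩
  have n0 : σ ^ e * (ρ l ^ e * s) ≠ 0 := left_ne_zero_of_mul (g1 b hb).1
  have q : σ ^ e * (ρ l ^ e * (s * τ)) / (σ ^ e * (ρ l ^ e * s)) = τ := by
    rw [div_eq_iff n0]
    ring
  rwa [q]

end Pool.Agent.MP_ee8c61_ag.N3.M3K
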