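import Pool.Agent.MP_ee8c61_ag.N3K.Spec

/-! Row Nc: the third divisor passes through the image of a curve. -/

namespace Pool.Agent.MP_ee8c61_ag.N3.M3K

open Pool.Agent.MP_ee8c61_ag.M3

set_option linter.unusedSectionVars false

variable [Base]

open H59 M3 M3E Finset
open H59.Sys (ind)

namespace RNc

theorem small {J : Type} [Fintype J] (m Y : J → ℚ) (hm : ∀ i, 0 < m i) :
    ∃ ε : ℚ, 0 < ε ∧ ∀ i, ε * |Y i| < m i := by
  have h0 : ∀ i, 0 ≤ |Y i| / m i := fun i => div_nonneg (abs_nonneg _) (hm i).le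
  have h1 : 0 < 1 + ∑ i, |Y i| / m i := by
    have := sum_nonneg fun i (_ : i ∈ univ) => h0 i
    linarith
  refine ⟨(1 + ∑ i, |Y i| / m i)⁻¹, inv_pos.2 h1, fun i => ?_⟩
  have h2 := single_le_sum (fun i (_ : i ∈ univ) => h0 i) (mem_univ i)
  rw [inv_mul_lt_iff₀ h1, ← div_lt_iff₀ (hm i)]
  linarith

variable {N : ℕ} {f : Po N} {M : Mod N} (C : Ch f M)

theorem q_ind (I : Finset M.J) (l : M.J) : M.q (ind I) l = if l ∈ I then 1 else 0 := by
  simp only [Mod.q_apply, ind]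
  split_ifs <;> simp

theorem q_e (j l : M.J) : M.q (M.e j) l = if l = j then 1 else 0 := by
  simp only [Mod.q_apply, Mod.e_apply]
  split_ifs <;> simp

theorem nz {J : Type} (n : ℕ) (x : J → ℤ) (i : J) : (n • x) i = n * x i := by simp

theorem nq {J : Type} (n : ℕ) (x : J → ℚ) (i : J) : (n • x) i = n * x i := by simp

theorem del_eq (I : Finset M.J) : del C I = dl C + C.P (1 - M.q (ind I)) := by
  have : M.q (M.kk + ind I) = M.nu - (1 - M.q (ind I)) := by
    funext l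
    simp [Mod.nu, Mod.kk]
    ring
  rw [del, dl, this, map_sub]
  abel

theorem co_nonneg (I : Finset M.J) : (0 : M.J → ℚ) ≤ 1 - M.q (ind I) := fun l => by
  simp only [Pi.sub_apply, q_ind, Pi.one_apply, Pi.zero_apply]
  split_ifs <;> norm_num

theorem e_nonneg (j : M.J) : (0 : M.J → ℚ) ≤ M.q (M.e j) := fun l => by
  simp only [q_e, Pi.zero_apply]
  split_ifs <;> norm_num

theorem pb_q_e (j : M.J) (i : C.W.J) : C.D.pb (M.q (M.e j)) i = C.D.m i j := by
  rw [← C.D.q_pb, Mod.q_apply, C.D.pb_e, Int.cast_natCast]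

end RNc

open RNc in
theorem rowNc : OfNc := by
  intro E hNg hTh hKa hKb hXi hCn hAv N f M C hM o j j' c L Γ k V hoj hoj' hjj' ao aj aj' hL hΓ
    hP hk hd hV hVk hT
  classical
  have B := E.bas N f C.W C.ok
  have G := hNg N f C.W C.ok
  have Ka := hKa N f M C hM
  have Kb := hKb N f M C hM
  have Cv := E.cv N f C.W C.ok
  have Aq := E.aq N f C.W C.ok
  obtain ⟨w, hw⟩ := C.ok.amp
  have hw' := Aq.of_amp w hw
  set I : Finset M.J := {o, j, j'} with hI
  set δ := del C I with hδ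
  set p := C.P (M.q (M.e j')) with hp
  set u := C.P (M.q (M.e o) + M.q (M.e j)) with hu
  set Ξ := C.P (C.D.pf (C.W.q w)) - C.W.q w with hΞ
  have eI : M.q (M.kk + ind I) = M.q M.kk + M.q (M.e o) + M.q (M.e j) + M.q (M.e j') := by
    funext l
    simp only [M.q_add, Pi.add_apply, q_ind, q_e, hI, mem_insert, mem_singleton]
    by_cases h1 : l = o <;> by_cases h2 : l = j <;> by_cases h3 : l = j' <;> simp_all
  have eI' : M.q (M.kk + ind {o, j}) = M.q M.kk + M.q (M.e o) + M.q (M.e j) := by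
    funext l
    simp only [M.q_add, Pi.add_apply, q_ind, q_e, mem_insert, mem_singleton]
    by_cases h1 : l = o <;> by_cases h2 : l = j <;> simp_all
  have p0 : ∀ i, 0 ≤ p i := Ka.mono _ (e_nonneg j')
  have u0 : ∀ i, 0 ≤ u i := Ka.mono _ (add_nonneg (e_nonneg o) (e_nonneg j))
  have dle : ∀ i, dl C i ≤ δ i := fun i => by
    have := Ka.mono _ (co_nonneg I) i
    rw [hδ, del_eq, Pi.add_apply]
    exact le_add_of_nonneg_right this
  have d0 : ∀ i, 0 ≤ δ i := fun i => (Kb.dl0 i).trans (dle i)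
  have dz : ∀ i, δ i = 0 → dl C i = 0 := fun i h => le_antisymm (h ▸ dle i) (Kb.dl0 i)
  have hdp : δ k + p k = 0 := by
    rw [← hd, hδ, hp, del, del, eI, eI', map_add (C.P) _ (M.q (M.e j'))]
    simp only [Pi.sub_apply, Pi.add_apply]
    ring
  have dk : δ k = 0 := by linarith [d0 k, p0 k]
  have pk : p k = 0 := by linarith [d0 k, p0 k]
  have Ξk : 0 < Ξ k := by
    have := hXi N f C.W M C.D C.ok hM _ hw' k hk
    rw [hΞ, Pi.sub_apply, (Kb.tame k (dz k dk)).2]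
    linarith
  obtain ⟨lam, l0, lk⟩ : ∃ lam : ℚ, 0 < lam ∧ lam * u k ≤ Ξ k := by
    have h1 : 0 < 1 + u k := by linarith [u0 k]
    refine ⟨Ξ k / (1 + u k), div_pos Ξk h1, ?_⟩
    rw [div_mul_eq_mul_div, div_le_iff₀ h1]
    nlinarith
  set Y := lam • u - Ξ with hY
  have Ya : ∀ l, C.Alive l → Y (C.D.e l) = lam * ((if l = o then 1 else 0) +
      if l = j then 1 else 0) := fun l hl => by
    simp only [hY, hu, hΞ, Pi.sub_apply, Pi.smul_apply, hl _, Pi.add_apply, q_e, smul_eq_mul,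
      Dom.pf, sub_self, sub_zero]
  have da : ∀ l, C.Alive l → δ (C.D.e l) = if l ∈ I then 0 else 1 := fun l hl => by
    rw [hδ, del_eq, Pi.add_apply, (Kb.alive l).1 hl, hl, Pi.sub_apply, q_ind]
    split_ifs <;> simp
  have pa : ∀ l, C.Alive l → p (C.D.e l) = if l = j' then 1 else 0 := fun l hl => by
    rw [hp, hl, q_e]
  obtain ⟨ε, e0, he⟩ := small (fun i => if 0 < δ i then min (δ i) 1 else 1) Y fun i => by
    split_ifs with h
    · exact lt_min h one_pos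
    · exact one_pos
  have e1 : ∀ i, -1 < ε * Y i ∧ ε * Y i < 1 := fun i => by
    have h1 : ε * |Y i| < 1 := (he i).trans_le (by split_ifs <;> simp)
    rwa [← abs_of_pos e0, ← abs_mul, abs_lt] at h1
  have e2 : ∀ i, 0 < δ i → 0 < δ i + ε * Y i := fun i h => by
    have h1 : ε * |Y i| < δ i := (he i).trans_le (by rw [if_pos h]; exact min_le_left _ _)
    rw [← abs_of_pos e0, ← abs_mul, abs_lt] at h1
    linarith [h1.1]
  set S₁ : Finset C.W.J := univ.filter fun i => δ i = 0 ∧ Y i ≤ 0 ∧ p i = 0 with hS₁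
  set S₂ : Finset C.W.J := univ.filter fun i => δ i = 0 ∧ Y i ≤ 0 ∧ 0 < p i with hS₂
  have m₁ : ∀ i, i ∈ S₁ ↔ δ i = 0 ∧ Y i ≤ 0 ∧ p i = 0 := fun i => by simp [hS₁]
  have m₂ : ∀ i, i ∈ S₂ ↔ δ i = 0 ∧ Y i ≤ 0 ∧ 0 < p i := fun i => by simp [hS₂]
  have kS : k ∈ S₁ := (m₁ k).2 ⟨dk, sub_nonpos.2 lk, pk⟩
  by_cases hc : ∃ i ∈ S₁, ∃ i' ∈ S₂, ∃ V', C.W.IsCv i i' V' ∧ Thr C.W L V' Γ
  · obtain ⟨i, hi, i', hi', V', hV', hT'⟩ := hc
    obtain ⟨a1, a2, a3⟩ := (m₁ i).1 hi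
    obtain ⟨b1, -, b3⟩ := (m₂ i').1 hi'
    have ti := Kb.tame i (dz i a1)
    have ti' := Kb.tame i' (dz i' b1)
    have th := hTh N f C.W M C.D C.ok hM V'
    have hti := B.thru_le V' i hV'.2.1 hV'.2.2.1
    have key : C.W.nu i = C.D.pb (M.q M.kk) i + C.D.m i o + C.D.m i j := by
      have h1 : δ i = C.W.nu i - C.P (M.q (M.kk + ind I)) i := rfl
      rw [a1, eI, map_add, Pi.add_apply, ← hp, a3, ti.2, C.D.pb_add, C.D.pb_add, Pi.add_apply,
        Pi.add_apply, pb_q_e, pb_q_e] at h1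
      linarith
    have n1 : i ≠ C.D.e o := fun h => by
      rw [h, Ya o ao, if_pos rfl, if_neg hoj] at a2
      linarith
    have n2 : i ≠ C.D.e j := fun h => by
      rw [h, Ya j aj, if_pos rfl, if_neg hoj.symm] at a2
      linarith
    refine ⟨V', hV'.2.1, fun l hl => ?_, (th o hV'.2.1).2 ⟨i, hti, ?_⟩,
      (th j hV'.2.1).2 ⟨i, hti, ?_⟩, (th j' hV'.2.1).2 ⟨i', hV'.2.2.2.1, ?_⟩, hT'⟩
    · rcases Cv.thru i i' V' l hV' hl with rfl | rfl
      exacts [ti.2, ti'.2]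
    · have := Kb.plt j i n2
      rw [key, M.q_add, C.D.pb_add, Pi.add_apply, pb_q_e] at this
      exact Nat.cast_pos.1 (by linarith : (0 : ℚ) < C.D.m i o)
    · have := Kb.plt o i n1
      rw [key, M.q_add, C.D.pb_add, Pi.add_apply, pb_q_e] at this
      exact Nat.cast_pos.1 (by linarith : (0 : ℚ) < C.D.m i j)
    · rw [hp, ti'.2, pb_q_e] at b3
      exact Nat.cast_pos.1 b3
  exfalso
  obtain ⟨r₀, hr₀⟩ := Ka.amp c L hL (-M.q (M.kk + ind I) - ε • C.D.pf (C.W.q w) +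
    (ε * lam) • (M.q (M.e o) + M.q (M.e j)))
  obtain ⟨n, hn, σ, hσ, gσ, nσ⟩ := hAv N f C.W C.ok L Γ
    {V' | ∃ i ∈ S₁, ∃ i' ∈ S₂, C.W.IsCv i i' V'} hL.free hΓ
    ((Set.finite_iUnion fun i => Cv.fin i).subset fun V' ⟨i, _, i', _, h⟩ =>
      Set.mem_iUnion.2 ⟨i, i', h⟩)
    (fun V' ⟨i, hi, i', hi', h⟩ => ⟨h.2.1, fun h' => hc ⟨i, hi, i', hi', V', h, h'⟩⟩) r₀
  have hA := hr₀ n hn _ (Aq.smul _ ε e0 hw')
  set A := n • C.W.q L + C.P (-M.q (M.kk + ind I) - ε • C.D.pf (C.W.q w) +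
    (ε * lam) • (M.q (M.e o) + M.q (M.e j))) + ε • C.W.q w with hAd
  have eA : ∀ i, (C.W.kk + C.W.up A) i = n * L i + ⌈δ i - 1 + ε * Y i⌉ := fun i => by
    have h1 : A i = δ i - 1 + ε * Y i + ((n * L i - C.W.k i : ℤ) : ℚ) := by
      have h2 : δ i = C.W.k i + 1 - C.P (M.q (M.kk + ind I)) i := rfl
      rw [hAd, map_add, map_sub, map_neg, map_smul, map_smul, h2, hY, hΞ, ← hu]
      simp only [Pi.add_apply, Pi.sub_apply, Pi.neg_apply, nq, Mod.q_apply]
      simp only [Pi.smul_apply, smul_eq_mul, Pi.sub_apply, Mod.q_apply]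
      push_cast
      ring
    rw [Pi.add_apply, Mod.up, h1, Int.ceil_add_intCast, Mod.kk]
    ring
  have c1 : ∀ i, δ i = 0 → Y i ≤ 0 → ⌈δ i - 1 + ε * Y i⌉ = -1 := fun i h1 h2 => by
    rw [Int.ceil_eq_iff, h1]
    have := mul_nonpos_of_nonneg_of_nonpos e0.le h2
    push_cast
    constructor <;> linarith [(e1 i).1]
  obtain ⟨r, g, hg, hg'⟩ := hCn N f C.W C.ok A (n • L) S₁ S₂ σ hA (B.free_nsmul L n hL.free)
    (disjoint_left.2 fun i h1 h2 => ((m₂ i).1 h2).2.2.ne' ((m₁ i).1 h1).2.2)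
    (fun i => by
      rw [Pi.add_apply, Pi.add_apply, eA, Pi.smul_apply, nsmul_eq_mul]
      by_cases h : δ i = 0 ∧ Y i ≤ 0
      · rw [c1 i h.1 h.2]
        rcases (p0 i).eq_or_lt with h' | h'
        · have : i ∈ S₁ := (m₁ i).2 ⟨h.1, h.2, h'.symm⟩
          simp only [ind, if_pos this]
          split_ifs <;> omega
        · have : i ∈ S₂ := (m₂ i).2 ⟨h.1, h.2, h'⟩
          simp only [ind, if_pos this]
          split_ifs <;> omega
      · have h1 : 0 < δ i + ε * Y i := by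
          rcases (d0 i).eq_or_lt with h' | h'
          · have := mul_pos e0 (not_le.1 fun h2 => h ⟨h'.symm, h2⟩)
            linarith
          · exact e2 i h'
        have h2 : -1 < ⌈δ i - 1 + ε * Y i⌉ := Int.lt_ceil.2 (by push_cast; linarith)
        simp only [ind]
        split_ifs <;> omega)
    hσ fun i hi i' hi' V' h => nσ V' ⟨i, hi, i', hi', h⟩
  set Λ := C.W.kk + C.W.up A + r • n • L + ind S₁ with hΛ
  have eΛ : ∀ i, Λ i = ((r + 1) * n) * L i + ⌈δ i - 1 + ε * Y i⌉ + ind S₁ i := fun i => by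
    rw [hΛ, Pi.add_apply, Pi.add_apply, eA]
    simp only [nz]
    ring
  have eR : (r + 1) • n • L = ((r + 1) * n) • L := (mul_smul _ _ _).symm
  have ePΛ : C.P (M.q (C.D.pf Λ)) = ((r + 1) * n) • C.W.q L - p := by
    rw [hL.eq, hp, ← map_nsmul, ← map_sub]
    refine Ka.congr _ _ fun l hl => ?_
    have h1 : (L (C.D.e l) : ℚ) = c l := by
      have := congrFun hL.eq (C.D.e l)
      rwa [hl] at this
    have h2 : ⌈δ (C.D.e l) - 1 + ε * Y (C.D.e l)⌉ + ind S₁ (C.D.e l) = -M.e j' l := by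
      have h3 := e1 (C.D.e l)
      have h4 := m₁ (C.D.e l)
      rw [Ya l hl] at h3
      rw [da l hl, Ya l hl, pa l hl] at h4
      rw [da l hl, Ya l hl, M.e_apply, ind]
      have h5 := mul_pos e0 l0
      have h6 : ε * lam < 1 → ⌈(0 : ℚ) - 1 + ε * lam⌉ = 0 := fun h => by
        rw [Int.ceil_eq_iff]
        push_cast
        constructor <;> linarith
      by_cases h7 : l = o
      · subst h7
        simp only [hI, mem_insert, true_or, if_true, if_neg hoj, if_neg hoj', add_zero,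
          mul_one] at h3 h4 ⊢
        rw [h6 h3.2, if_neg fun h => not_le.2 l0 (h4.1 h).2.1]
        rfl
      by_cases h8 : l = j
      · subst h8
        simp only [hI, mem_insert, true_or, or_true, if_true, if_neg h7, if_neg hjj', zero_add,
          mul_one] at h3 h4 ⊢
        rw [h6 h3.2, if_neg fun h => not_le.2 l0 (h4.1 h).2.1]
        rfl
      by_cases h9 : l = j'
      · subst h9
        simp only [hI, mem_insert, mem_singleton, or_true, if_true, if_neg h7, if_neg h8,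
          add_zero, mul_zero] at h4 ⊢
        rw [if_neg fun h => one_ne_zero (h4.1 h).2.2]
        norm_num
      · simp only [hI, mem_insert, mem_singleton, h7, h8, h9, or_false, if_false,
          add_zero, mul_zero] at h4 ⊢
        rw [if_neg fun h => one_ne_zero (h4.1 h).1]
        norm_num
    have h3 : Λ (C.D.e l) = ((r + 1) * n) * L (C.D.e l) - M.e j' l := by
      rw [eΛ, add_assoc, h2, sub_eq_add_neg]
    simp only [Mod.q_apply, Dom.pf, Pi.sub_apply, nq, h3]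
    push_cast
    rw [h1]
  obtain ⟨i₀, t₀, q₀⟩ := hP
  have g1 : g ∈ C.W.H (((r + 1) * n) • L - C.W.e i₀) := Ka.excH Λ _ (fun i => by
    rw [ePΛ]
    simp only [Pi.sub_apply, nq, nz, Mod.q_apply, Mod.e_apply]
    have := p0 i
    split_ifs with h
    · subst h
      push_cast
      linarith
    · push_cast
      linarith) hg
  have g2 : g ∈ C.W.H (((r + 1) * n) • L) := G.mono _ _ (fun i => by
    simp only [Pi.sub_apply, Mod.e_apply]
    split_ifs <;> omega) g1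
  have s1 : σ ^ (r + 1) ∈ C.W.H (((r + 1) * n) • L) := eR ▸ G.pow _ (r + 1) σ hσ
  have s2 : g - σ ^ (r + 1) ∈ C.W.H (((r + 1) * n) • L) := fun V' h =>
    B.oc_sub V' _ _ _ (g2 V' h) (s1 V' h)
  have s3 := hg' k kS
  rw [show Λ k = (((r + 1) * n) • L) k by
    rw [eΛ, c1 k dk ((m₁ k).1 kS).2.1, ind, if_pos kS, Pi.smul_apply, nsmul_eq_mul]
    push_cast
    ring] at s3
  have s4 := G.sub V _ k _ hV hVk (G.van _ k _ s2 s3 V hV)
  have s5 := G.dif Γ _ g _ hΓ (g2 Γ hΓ) (s2 Γ hΓ) (G.sub Γ _ i₀ g hΓ t₀ (g1 Γ hΓ))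
    fun h => s4 (hT _ _ s2 h)
  rw [sub_sub_cancel] at s5
  exact s5 (eR ▸ B.gen_pow Γ _ σ (r + 1) gσ)

end Pool.Agent.MP_ee8c61_ag.N3.M3K
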