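import Pool.Agent.MP_ee8c61_ag.N3K.Spec

/-! Every divisor is generated at a refinement of corank one, after a twist. -/

namespace Pool.Agent.MP_ee8c61_ag.N3.M3K

open Pool.Agent.MP_ee8c61_ag.M3

set_option linter.unusedSectionVars false

variable [Base]

open H59 M3 M3E Finset

namespace RNg

variable {N : ℕ} {W : Mod N} {V₀ V : Vl N} {L : W.J → ℤ} {s y : KK N} {b : W.ι}

/-- Functions that become regular on the chart after multiplication by a unit of `V`. -/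
def Sb (W : Mod N) (V₀ V : Vl N) (L : W.J → ℤ) (s : KK N) (b : W.ι) (x : KK N) : Prop :=
  ∃ β, Bs W V₀ L s β ∧ Un V β ∧ ∀ V', Ov V' → V' ≤ V₀ → W.Gen V' L s → W.In b V' → β * x ∈ V'

theorem Sb.mul {x x' : KK N} (h : Sb W V₀ V L s b x) (h' : Sb W V₀ V L s b x') :
    Sb W V₀ V L s b (x * x') := by
  obtain ⟨β, a1, a2, a3⟩ := h
  obtain ⟨β', b1, b2, b3⟩ := h'
  refine ⟨β * β', fun V' p q r => mul_mem (a1 V' p q r) (b1 V' p q r), a2.mul b2,
    fun V' p q r t => ?_⟩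
  rw [mul_mul_mul_comm]
  exact mul_mem (a3 V' p q r t) (b3 V' p q r t)

theorem of_A {x : KK N} (h : x ∈ W.S.A b) : Sb W V₀ V L s b x :=
  ⟨1, fun _ _ _ _ => one_mem _, un_one, fun _ _ _ _ t => by rw [one_mul]; exact t x h⟩

theorem Sb.pow {x : KK N} (h : Sb W V₀ V L s b x) (n : ℕ) : Sb W V₀ V L s b (x ^ n) := by
  induction n with
  | zero => rw [pow_zero]; exact of_A (one_mem _)
  | succ n ih => rw [pow_succ]; exact ih.mul h

theorem of_V (hR : Rv W V₀ V L s) {x : KK N} (h : x ∈ V) : Sb W V₀ V L s b x := by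
  obtain ⟨β, a1, a2, a3⟩ := hR x h
  exact ⟨β, a1, a2, fun V' p q r _ => a3 V' p q r⟩

theorem mem_V (hy : y ∈ V) (y0 : y ≠ 0) {g : KK N} {e : ℤ} (he : 0 ≤ e) (h : Un V (g / y ^ e)) :
    g ∈ V := by
  obtain ⟨n, rfl⟩ := Int.eq_ofNat_of_zero_le he
  have := mul_mem h.2.1 (pow_mem hy n)
  rwa [zpow_natCast, div_mul_cancel₀ _ (pow_ne_zero n y0)] at this

theorem of_unit (hR : Rv W V₀ V L s) (hC : Ck V₀ V y) (h0 : W.In b V₀) (h1 : ¬W.In b V)
    {g : KK N} (hg : Un V₀ g) : Sb W V₀ V L s b g := by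
  have y0 := hC.un.1
  obtain ⟨a, ha, haV⟩ : ∃ a ∈ W.S.A b, a ∉ V := by
    by_contra k
    exact h1 fun a ha => by_contra fun k' => k ⟨a, ha, k'⟩
  have a0 : a ≠ 0 := fun k => haV (k ▸ zero_mem _)
  obtain ⟨e, he⟩ := hC.ord a ⟨a0, h0 a ha, hC.le ((V.mem_or_inv_mem a).resolve_left haV)⟩
  have e0 : e < 0 := not_le.mp fun k => haV (mem_V hC.mem y0 k he)
  obtain ⟨n, rfl⟩ : ∃ n : ℕ, e = -((n + 1 : ℕ) : ℤ) := ⟨(-e - 1).toNat, by omega⟩
  have hy : Sb W V₀ V L s b y⁻¹ := by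
    have := (of_A ha).mul (of_V (b := b) hR (mul_mem he.2.2 (pow_mem hC.mem n)))
    rwa [show a * ((a / y ^ (-((n + 1 : ℕ) : ℤ)))⁻¹ * y ^ n) = y⁻¹ by
      rw [zpow_neg, zpow_natCast]; field_simp; ring] at this
  obtain ⟨e, he⟩ := hC.ord g hg
  rcases le_total 0 e with k | k
  · exact of_V hR (mem_V hC.mem y0 k he)
  · obtain ⟨m, rfl⟩ : ∃ m : ℕ, e = -(m : ℤ) := ⟨(-e).toNat, by omega⟩
    have := (of_V (b := b) hR he.2.1).mul (hy.pow m)
    rwa [inv_pow, zpow_neg, zpow_natCast, div_mul_cancel₀ _ (inv_ne_zero (pow_ne_zero m y0))]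
      at this

end RNg

theorem rowNg : OfNg := by
  classical
  intro E hLo N f W ok V₀ V y L s hV hC hs hg hR c
  have B := E.bas N f W ok
  obtain ⟨b₀, h0⟩ := ok.cov V hV
  have h0' : W.In b₀ V₀ := fun g k => hC.le (h0 g k)
  have key : ∀ b, RNg.Sb W V₀ V L s b (W.mon b c / W.mon b₀ c) := by
    intro b
    by_cases k0 : W.In b V₀
    · by_cases k1 : W.In b V
      · exact RNg.of_V hR (B.un_mon b b₀ V c k1 h0).2.1
      · exact RNg.of_unit hR hC k0 k1 (B.un_mon b b₀ V₀ c k0 h0')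
    · exact ⟨1, fun _ _ _ _ => one_mem _, un_one,
        fun V' _ q _ t => absurd (fun g k => q (t g k)) k0⟩
  choose β b1 b2 b3 using key
  obtain ⟨e₀, he⟩ := hLo N f W ok V₀ L c s ((∏ b, β b) / W.mon b₀ c) hs
    ((B.gen_iff b₀ V₀ L s h0').2 ((hg b₀ h0).mono hC.le)) (fun V' p q r b t => by
      have := mul_mem (prod_mem (t := univ.erase b) fun i _ => b1 i V' p q r) (b3 b V' p q r t)
      rwa [← mul_assoc, prod_erase_mul _ _ (mem_univ b), mul_div_left_comm, mul_comm,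
        div_eq_mul_inv] at this)
  refine ⟨e₀, fun e k => ⟨_, he e k, B.gen_mul _ _ _ _ _ (B.gen_pow _ _ _ e hg) ?_⟩⟩
  rw [B.gen_iff b₀ V c _ h0, div_mul_cancel₀ _ (W.mon_ne b₀ c)]
  exact Un.prod _ fun i _ => b2 i

end Pool.Agent.MP_ee8c61_ag.N3.M3K
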