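import Pool.Agent.MP_ee8c61_ag.N3K.Spec

/-!
A point of the image of a divisor on two other alive divisors is a node.
-/

namespace Pool.Agent.MP_ee8c61_ag.N3.M3K

open Pool.Agent.MP_ee8c61_ag.M3

set_option linter.unusedSectionVars false

variable [Base]

open H59 M3 M3E Finset
open H59.Sys (ind)

noncomputable section

namespace RNode

variable {N : ℕ} {f : Po N} {M : Mod N}

theorem e_nonneg (j : M.J) : 0 ≤ M.q (M.e j) := fun i => by
  rw [Mod.q_apply, Mod.e_apply]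
  split_ifs <;> simp

/-- A divisor of `M` with vanishing coefficient is one of the chosen divisors. -/
theorem mem_of_del {C : Ch f M} (ka : Ka C) (kb : Kb C) (I : Finset M.J) (j : M.J)
    (h : del C I (C.D.e j) = 0) : j ∈ I := by
  have hx : 0 ≤ M.nu - M.q (M.kk + ind I) := fun i => by
    simp only [Mod.nu, Mod.kk, ind, Pi.sub_apply, Mod.q_apply, Pi.add_apply, Pi.zero_apply]
    split_ifs <;> simp
  have h1 := ka.mono _ hx (C.D.e j)
  have h2 := kb.dl0 (C.D.e j)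
  have h3 : del C I (C.D.e j) =
      dl C (C.D.e j) + C.P (M.nu - M.q (M.kk + ind I)) (C.D.e j) := by
    simp only [del, dl, map_sub, Pi.sub_apply]
    ring
  rw [Pi.zero_apply] at h1 h2
  have h4 := (kb.alive j).2 (by linarith) (M.nu - M.q (M.kk + ind I))
  have h5 : (M.nu - M.q (M.kk + ind I)) j = 0 := by linarith
  by_contra q
  simp [Mod.nu, Mod.kk, ind, q] at h5

theorem cst {K : Type} [Field K] [Algebra ℂ K] {A B : Subalgebra ℂ K}
    {V Γ : ValuationSubring K} (lc : ∀ g ∈ B, Lc A Γ g) (un : ∀ g ∈ A, (Un V g ↔ Un Γ g))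
    (r : ∀ g, Lc A V g → ∃ κ : ℂ, ¬Un V (g - algebraMap ℂ K κ)) (g : K) (hg : Lc B Γ g) :
    ∃ κ : ℂ, ¬Un Γ (g - algebraMap ℂ K κ) := by
  obtain ⟨s, a, b, c⟩ := hg
  have h := ((lc s a).inv b).mul (lc _ c)
  rw [inv_mul_cancel_left₀ b.1] at h
  obtain ⟨t, a', b', c'⟩ := h
  obtain ⟨κ, hκ⟩ := r g ⟨t, a', (un t a').2 b', c'⟩
  refine ⟨κ, fun q => hκ ?_⟩
  have m : (g - algebraMap ℂ K κ) * t ∈ A := by
    rw [sub_mul, mul_comm g t]
    exact sub_mem c' (mul_mem (A.algebraMap_mem κ) a')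
  exact ((un _ m).2 (q.mul b')).cancel ((un t a').2 b')

end RNode

open RNode in
theorem rowNode : OfNode := by
  intro E hKa hKb hRf hSep hR0 hNa hNc hIso f M C hM o j j' Γ oj oj' jj' ao aj aj' oΓ lΓ p p'
  obtain ⟨W', D', ok', sep⟩ := hSep 3 f C.W C.ok _ _
    ((E.dc 3 f C.W M C.D C.ok hM).inj.ne oj)
  obtain ⟨h, rf⟩ := hRf 3 f M C hM W' D' ok'
  have ka := hKa 3 f M C hM
  have ka' := hKa 3 f M (refine C D' h) hM
  have kb' := hKb 3 f M (refine C D' h) hM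
  have bas := E.bas 3 f M hM
  obtain ⟨c, L, pz⟩ := ka'.pz
  have bo := (rf.alive o).2 ao
  have bj := (rf.alive j).2 aj
  obtain ⟨k, V, cv, d0, thr⟩ := hNa 3 f M (refine C D' h) hM o j c L Γ oj bo bj pz oΓ lΓ
    ((rf.pv Γ _ oΓ (ka.mono _ (e_nonneg j))).2 p)
  have hk : k ∉ Set.range (refine C D' h).D.e := by
    rintro ⟨i, rfl⟩
    rcases mem_insert.1 (mem_of_del ka' kb' _ i d0) with q | q
    · exact cv.1 (q ▸ rfl)
    · rw [mem_singleton.1 q] at cv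
      exact sep V cv.2.1 ((E.bas 3 f W' ok').thru_le V _ cv.2.1 cv.2.2.1) cv.2.2.2.1
  obtain ⟨V', ov', tm, t₀, t₁, t₂, thr'⟩ := hNc 3 f M (refine C D' h) hM o j j' c L Γ k V oj oj'
    jj' bo bj ((rf.alive j').2 aj') pz oΓ ((rf.pv Γ _ oΓ (ka.mono _ (e_nonneg j'))).2 p') hk d0
    cv.2.1 cv.2.2.2.1 thr
  have r := fun a ha => hR0 f M hM V' a o j j' oj oj' jj' ha t₀ t₁ t₂
  obtain ⟨tΓ, iso⟩ := hIso 3 f M (refine C D' h) hM c L V' Γ pz ov' oΓ tm r thr'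
  obtain ⟨a, ha⟩ := hM.cov V' ov'
  obtain ⟨haΓ, un⟩ := iso a ha
  have th : ∀ i, M.Thru V' i → M.Thru Γ i := fun i t =>
    (bas.thru_iff a Γ i haΓ).2 fun q => t a ha ((un _ (bas.η_mem a i)).2 q)
  exact ⟨(rf.tame Γ oΓ).1 tΓ, th j t₁, th j' t₂, fun b hb =>
    cst (bas.lc b a Γ hb haΓ) un (r a ha)⟩

end

end Pool.Agent.MP_ee8c61_ag.N3.M3K
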