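import Pool.Agent.MP_ee8c61_ag.N3K.Spec

/-!
A contracted curve with a nonconstant ratio of sections has log discrepancy zero.
-/

namespace Pool.Agent.MP_ee8c61_ag.N3.M3K

open Pool.Agent.MP_ee8c61_ag.M3

set_option linter.unusedSectionVars false

variable [Base]

open H59 M3 M3E Finset

namespace RNull

variable {N : ℕ} {f : Po N} {W : Mod N}

theorem gen_zpow (B : Bas f W) {V : Vl N} {c : W.J → ℤ} {g : KK N} (h : W.Gen V c g) (n : ℤ) :
    W.Gen V (n • c) (g ^ n) := by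
  rcases n with n | n
  · have := B.gen_pow V c g n h
    rwa [Int.ofNat_eq_natCast, natCast_zsmul, zpow_natCast]
  · have := B.gen_inv V _ _ (B.gen_pow V c g (n + 1) h)
    rwa [negSucc_zsmul, zpow_negSucc]

/-- A unit that generates along a curve forces the two exponents to vanish. -/
theorem exp_zero (B : Bas f W) (hC : Cv W) (hW : W.OK f) {o i : W.J} {Γ : Vl N}
    (hΓ : W.IsCv o i Γ) {y : W.J → ℤ} {φ : KK N} (hu : Un Γ φ) (hg : W.Gen Γ y φ) :
    y o = 0 ∧ y i = 0 := by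
  obtain ⟨b, hb⟩ := hW.cov Γ hΓ.2.1
  have h1 : Un Γ (W.mon b y) := by
    have := hg b hb
    rw [mul_comm] at this
    exact this.cancel hu
  have hbo : W.In b (W.v o).O := fun g hg => hΓ.2.2.1 (hb g hg)
  have ho : y o = 0 := by
    have := ((W.v o).un_O.1 (h1.mono hΓ.2.2.1)).2
    rwa [B.v_mon b o y hbo] at this
  refine ⟨ho, ?_⟩
  have h2 : Un Γ (W.mon b (y - y i • W.e i)) := by
    refine B.un_of b Γ _ hb fun j hj => ?_
    rcases hC.thru o i Γ j hΓ hj with rfl | rfl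
    · simp [Mod.e_apply, ho, hΓ.1.symm]
    · simp [Mod.e_apply]
  have h3 : W.mon b y = W.mon b (y i • W.e i) * W.mon b (y - y i • W.e i) := by
    rw [← B.mon_add, add_sub_cancel]
  rw [h3, B.mon_e] at h1
  exact (un_zpow_iff (W.η_ne b i) (hb _ (B.η_mem b i)) (hΓ.2.2.2.1 b hb) _).1 (h1.cancel h2)

variable {M : Mod N}

theorem P_sum (C : Ch f M) (x : M.J → ℤ) (i : C.W.J) :
    C.P (M.q x) i = ∑ j, (x j : ℚ) * C.P (M.q (M.e j)) i := by
  have : M.q x = ∑ j, (x j : ℚ) • M.q (M.e j) := by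
    funext l
    simp [Finset.sum_apply, Mod.e_apply]
  rw [this, map_sum, Finset.sum_apply]
  exact sum_congr rfl fun j _ => by rw [map_smul]; rfl

theorem each_zero {J : Type} [Fintype J] (o : J) (x p : J → ℚ) (hp : ∀ j, 0 ≤ p j) (ho : x o = 0)
    (hs : ∑ j, x j * p j = 0)
    (hn : ¬∃ j j', o ≠ j ∧ o ≠ j' ∧ j ≠ j' ∧ 0 < p j ∧ 0 < p j') (j : J) : x j * p j = 0 := by
  by_contra h
  have h1 : o ≠ j := fun e => h (by rw [← e, ho, zero_mul])
  have h2 : 0 < p j := lt_of_le_of_ne (hp j) fun e => h (by rw [← e, mul_zero])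
  refine h ((sum_eq_single (f := fun j => x j * p j) j (fun j' _ hj' => ?_)
    fun e => (e (mem_univ _)).elim).symm.trans hs)
  show x j' * p j' = 0
  by_cases e : o = j'
  · rw [← e, ho, zero_mul]
  · have : p j' = 0 := le_antisymm (not_lt.1 fun h3 => hn ⟨j, j', h1, e, hj'.symm, h2, h3⟩) (hp j')
    rw [this, mul_zero]

end RNull

open RNull in
theorem rowNull : OfNull := by
  intro hE hNg hKa hTc hHor f M C hM o i Γ c L ho hP hΓ hN c₁ c₁' c₂ c₂' s₁ s₂ n m₁ m₂ hs₁ hs₂ g₁ g₂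
    hT
  have BW := hE.bas _ f C.W C.ok
  have BM := hE.bas _ f M hM
  have CW := hE.cv _ f C.W C.ok
  have NW := hNg _ f C.W C.ok
  have NM := hNg _ f M hM
  have K := hKa _ f M C hM
  have hov : Ov Γ := hΓ.2.1
  obtain ⟨b, hb⟩ := C.ok.cov Γ hov
  have hu : Un Γ (s₁ / s₂ * ip 3 f ^ n) := by simpa using hT 0
  have hg : C.W.Gen Γ (c₁' + -c₂' + n • -C.W.aa) (s₁ / s₂ * ip 3 f ^ n) := by
    rw [div_eq_mul_inv]
    exact BW.gen_mul _ _ _ _ _ (BW.gen_mul _ _ _ _ _ g₁ (BW.gen_inv _ _ _ g₂))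
      (gen_zpow BW (BW.gen_f Γ) n)
  obtain ⟨e1, e2⟩ := exp_zero BW CW C.ok hΓ hu hg
  obtain ⟨x, hx⟩ : ∃ x : M.J → ℤ, x = c₁ + -c₂ + n • -M.aa := ⟨_, rfl⟩
  have hq : C.W.q (c₁' + -c₂' + n • -C.W.aa) = C.P (M.q x) := by
    rw [hx]
    simp only [Mod.q_add, Mod.q_neg, Mod.q_zsmul, map_add, map_neg, map_smul, m₁.eq, m₂.eq, K.aa]
  have xo : (x o : ℚ) = 0 := by
    have := congrFun hq (C.D.e o)
    rw [ho, Mod.q_apply, Mod.q_apply, e1] at this
    exact this.symm.trans Int.cast_zero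
  have xi : C.P (M.q x) i = 0 := by
    have := congrFun hq i
    rw [Mod.q_apply, e2] at this
    exact this.symm.trans Int.cast_zero
  have hp : ∀ j, 0 ≤ C.P (M.q (M.e j)) i := fun j => K.mono _ (fun l => by
    simp only [Mod.q_apply, Mod.e_apply, Pi.zero_apply]
    split_ifs <;> simp) i
  by_cases hn : ∃ j j', o ≠ j ∧ o ≠ j' ∧ j ≠ j' ∧ 0 < C.P (M.q (M.e j)) i ∧
      0 < C.P (M.q (M.e j')) i
  · obtain ⟨j, j', a1, a2, a3, a4, a5⟩ := hn
    have al : ∀ j, 0 < C.P (M.q (M.e j)) i → C.Alive j := fun j h => by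
      by_contra e
      rw [K.dead j e] at h
      exact lt_irrefl _ h
    exact hHor f M C hM o j j' i Γ a1 a2 a3 ho (al j a4) (al j' a5) hΓ a4 a5 c₁ c₁' c₂ c₂' s₁ s₂ n
      m₁ m₂ hs₁ hs₂ g₁ g₂ hT
  exfalso
  have hz := each_zero o (fun j => (x j : ℚ)) (fun j => C.P (M.q (M.e j)) i) hp xo
    ((P_sum C x i).symm.trans xi) hn
  obtain ⟨y, hy⟩ : ∃ y : M.J → ℤ, ∀ j, y j = max (x j) 0 := ⟨fun j => max (x j) 0, fun _ => rfl⟩
  have yo : C.P (M.q y) (C.D.e o) = 0 := by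
    rw [ho, Mod.q_apply, hy, Int.cast_eq_zero.1 xo, max_self, Int.cast_zero]
  have yi : C.P (M.q y) i = 0 := by
    rw [P_sum]
    refine sum_eq_zero fun j _ => ?_
    rw [hy]
    rcases max_choice (x j) 0 with e | e <;> rw [e]
    · exact hz j
    · rw [Int.cast_zero, zero_mul]
  have t₁ : s₁ * ip 3 f ^ n ∈ M.H (c₂ + y) := by
    have a : ip 3 f ^ n ∈ M.H (n • -M.aa) := fun V _ =>
      BM.gen_oc _ _ _ (gen_zpow BM (BM.gen_f V) n)
    refine NM.mono _ _ (fun j => ?_) (NM.mul _ _ _ hs₁ _ a)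
    have b1 := congrFun hx j
    have b2 := hy j
    have b3 := le_max_left (x j) 0
    simp only [Pi.add_apply, Pi.neg_apply] at b1 ⊢
    omega
  have t₂ : s₂ ∈ M.H (c₂ + y) := by
    refine NM.mono _ _ (fun j => ?_) hs₂
    have b2 := hy j
    have b3 := le_max_right (x j) 0
    simp only [Pi.add_apply]
    omega
  obtain ⟨R, hR⟩ := K.far _ hP.inn (-M.q (c₂ + y))
  obtain ⟨m, c₄, c₄', hm, q₄, m₄⟩ := K.mob _ (hR R le_rfl).2
  obtain ⟨τ, hτ, gτ⟩ := NW.ex c₄' Γ m₄.free hov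
  have hτ' : τ ∈ M.H c₄ := by
    have := m₄.H 1
    rw [one_smul, one_smul] at this
    rwa [this]
  have hc : m • (c₂ + y) + c₄ = (m * R) • c := by
    refine M.q_inj ?_
    rw [Mod.q_add, Mod.q_nsmul, Mod.q_nsmul, q₄, smul_add, smul_neg, mul_smul]
    abel
  have sec : ∀ s ∈ M.H (c₂ + y), s ^ m * τ ∈ C.W.H ((m * R) • L) := fun s hs => by
    rw [← hP.H, ← hc]
    exact NM.mul _ _ _ (NM.pow _ m _ hs) _ hτ'
  have hL : C.W.q (m • c₂' + c₄') + m • C.P (M.q y) = C.W.q ((m * R) • L) := by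
    rw [Mod.q_add, Mod.q_nsmul, Mod.q_nsmul, m₂.eq, m₄.eq, hP.eq, ← map_nsmul, ← map_nsmul,
      ← map_nsmul, ← map_add, ← map_add, ← Mod.q_nsmul M (m * R), ← hc, Mod.q_add, Mod.q_nsmul,
      Mod.q_add, smul_add, add_right_comm]
  have gs : C.W.Gen Γ ((m * R) • L) (s₂ ^ m * τ) := by
    refine BW.gen_congr _ _ _ _ (fun j hj => ?_)
      (BW.gen_mul _ _ _ _ _ (BW.gen_pow _ _ _ m g₂) gτ)
    have a := congrFun hL j
    have a0 : C.P (M.q y) j = 0 := by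
      rcases CW.thru _ _ _ j hΓ hj with e | e <;> rw [e]
      exacts [yo, yi]
    rw [Pi.add_apply, Pi.smul_apply, a0, smul_zero, add_zero, Mod.q_apply, Mod.q_apply] at a
    exact Int.cast_injective a
  refine hN (m * R) ⟨_, sec _ t₂, _, sec _ t₁, gs, fun a => ?_⟩
  have τ0 : τ ≠ 0 := left_ne_zero_of_mul (gτ b hb).1
  have := hTc _ Γ _ hov hT _ (Polynomial.X_pow_sub_C_ne_zero hm a)
  rw [map_sub, map_pow, Polynomial.aeval_X, Polynomial.aeval_C] at this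
  rwa [mul_div_mul_right _ _ τ0, ← div_pow, mul_div_right_comm]

end Pool.Agent.MP_ee8c61_ag.N3.M3K
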