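import Pool.Agent.MP_ee8c61_ag.N3K.Spec

/-!
Four rational functions in three variables are algebraically dependent.
-/

namespace Pool.Agent.MP_ee8c61_ag.N3.M3K

open Pool.Agent.MP_ee8c61_ag.M3

set_option linter.unusedSectionVars false

variable [Base]

open H59 M3 M3E Polynomial

namespace RTr4

theorem trdeg_eq : Algebra.trdeg ℂ (KK 3) = 3 := by
  have h := trdeg_add_eq ℂ (MvPolynomial (Fin 3) ℂ) (A := KK 3)
  have : Algebra.IsAlgebraic (MvPolynomial (Fin 3) ℂ) (KK 3) :=
    IsLocalization.isAlgebraic _ (nonZeroDivisors _)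
  rw [MvPolynomial.trdeg_of_isDomain, trdeg_eq_zero] at h
  rw [← h]
  simp

theorem not_inj (E : (MvPolynomial (Fin 2) ℂ)[X][X] →ₐ[ℂ] KK 3) : ∃ P, P ≠ 0 ∧ E P = 0 := by
  by_contra hn
  have h1 : Function.Injective E := fun P Q hP =>
    by_contra fun h => hn ⟨P - Q, sub_ne_zero.2 h, (E.toRingHom.map_sub P Q).trans (sub_eq_zero.2 hP)⟩
  let ψ := (MvPolynomial.optionEquivLeft ℂ (Option (Fin 2))).trans
    (mapAlgEquiv (MvPolynomial.optionEquivLeft ℂ (Fin 2)))
  have h2 : AlgebraicIndependent ℂ fun i => E (ψ (MvPolynomial.X i)) := by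
    have e : MvPolynomial.aeval (fun i => E (ψ (MvPolynomial.X i))) = E.comp ψ.toAlgHom :=
      MvPolynomial.algHom_ext fun i => MvPolynomial.aeval_X _ _
    rw [AlgebraicIndependent, e]
    exact h1.comp ψ.injective
  have h3 := h2.cardinalMk_le_trdeg
  rw [trdeg_eq] at h3
  simp only [Cardinal.mk_fintype, Fintype.card_option, Fintype.card_fin] at h3
  have h4 : 2 + 1 + 1 ≤ 3 := by exact_mod_cast h3
  omega

end RTr4

theorem rowTr4 : STr4 := by
  intro τ y u hy
  obtain ⟨P, h0, h1⟩ := RTr4.not_inj (aevalTower (aevalTower (MvPolynomial.aeval τ) u) y)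
  obtain ⟨Q, h2, h3⟩ := exists_eq_pow_rootMultiplicity_mul_and_not_dvd P h0 0
  rw [C_0, sub_zero] at h2 h3
  rw [h2, map_mul, map_pow, aevalTower_X] at h1
  have h4 := (mul_eq_zero.1 h1).resolve_left (pow_ne_zero _ hy)
  have h5 : ∀ p : MvPolynomial (Fin 2) ℂ,
      MvPolynomial.aeval τ p ∈ Algebra.adjoin ℂ {τ 0, τ 1, y} := fun p => by
    have : MvPolynomial.aeval τ p ∈ Algebra.adjoin ℂ (Set.range τ) := by
      rw [Algebra.adjoin_range_eq_range_aeval]
      exact ⟨p, rfl⟩
    refine Algebra.adjoin_mono ?_ this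
    rintro _ ⟨i, rfl⟩
    fin_cases i <;> simp
  have h6 : ∀ p : (MvPolynomial (Fin 2) ℂ)[X], aevalTower (MvPolynomial.aeval τ) u p =
      (p.map (MvPolynomial.aeval τ).toRingHom).eval u := fun p => by
    rw [eval_map]
    rfl
  have h7 : ∀ q : (MvPolynomial (Fin 2) ℂ)[X][X],
      aevalTower (aevalTower (MvPolynomial.aeval τ) u) y q =
        (q.eval₂ (mapRingHom (MvPolynomial.aeval τ).toRingHom) (C y)).eval u := fun q => by
    induction q using Polynomial.induction_on' with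
    | add p q hp hq => rw [map_add, eval₂_add, eval_add, hp, hq]
    | monomial n a =>
      rw [eval₂_monomial, ← C_mul_X_pow_eq_monomial, map_mul, map_pow, aevalTower_X, aevalTower_C,
        h6, eval_mul, eval_pow, eval_C, coe_mapRingHom]
  refine ⟨Q.coeff 0, Q.divX.eval₂ (mapRingHom (MvPolynomial.aeval τ).toRingHom) (C y),
    fun e => h3 (X_dvd_iff.2 e), fun j => ?_, ?_⟩
  · rw [eval₂_eq_sum, sum_def, finsetSum_coeff]
    refine Subalgebra.sum_mem _ fun n _ => ?_
    rw [← C_pow, coeff_mul_C, coe_mapRingHom, coeff_map]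
    exact Subalgebra.mul_mem _ (h5 _)
      (Subalgebra.pow_mem _ (Algebra.subset_adjoin (by simp)) _)
  · rw [← X_mul_divX_add Q, map_add, map_mul, aevalTower_X, aevalTower_C, h6, h7] at h4
    rw [eval_add, eval_mul, eval_C, add_comm]
    exact h4

end Pool.Agent.MP_ee8c61_ag.N3.M3K
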