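import Pool.Agent.MP_ee8c61_ag.N3K.Spec

/-!
An element that satisfies an equation with a unit coefficient.
-/

namespace Pool.Agent.MP_ee8c61_ag.N3.M3K

open Pool.Agent.MP_ee8c61_ag.M3

set_option linter.unusedSectionVars false

variable [Base]

open M3 Polynomial

namespace RUl

variable {K : Type} [Field K]

theorem coeff_it (p : K[X]) (j i : ℕ) : (divX^[j] p).coeff i = p.coeff (i + j) := by
  induction j generalizing i with
  | zero => rfl
  | succ j ih => rw [Function.iterate_succ_apply', coeff_divX, ih, add_assoc, add_comm 1]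

theorem step (p : K[X]) (u : K) (j : ℕ) :
    (divX^[j + 1] p).eval u * u = (divX^[j] p).eval u - p.coeff j := by
  have := congrArg (eval u) (divX_mul_X_add (divX^[j] p))
  rw [eval_add, eval_mul, eval_X, eval_C, coeff_it, zero_add] at this
  rw [Function.iterate_succ_apply', ← this, add_sub_cancel_right]

theorem ev_mem (V : ValuationSubring K) {p : K[X]} {u : K} (hp : ∀ j, p.coeff j ∈ V) (hu : u ∈ V) :
    p.eval u ∈ V := by
  rw [eval_eq_sum_range]
  exact sum_mem fun j _ => mul_mem (hp j) (pow_mem hu j)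

theorem it_mem (V : ValuationSubring K) {p : K[X]} {u : K} (hp : ∀ j, p.coeff j ∈ V)
    (h0 : p.eval u ∈ V) (j : ℕ) : (divX^[j] p).eval u ∈ V := by
  by_cases hu : u ∈ V
  · exact ev_mem V (fun i => by rw [coeff_it]; exact hp _) hu
  have u0 : u ≠ 0 := fun e => hu (e ▸ zero_mem V)
  induction j with
  | zero => exact h0
  | succ j ih =>
    rw [← mul_inv_cancel_right₀ u0 (eval u _), step]
    exact mul_mem (sub_mem ih (hp j)) ((V.mem_or_inv_mem u).resolve_left hu)

end RUl

open RUl in
theorem rowUl : SUl := by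
  intro K _ V₀ V F p u k h0 hV hF hu hp hk he
  have eV := ev_mem V (fun j => hp j V hV) hu
  have m : ∀ j, ∀ V' ∈ F, (divX^[j] p).eval u ∈ V' := fun j V' h' =>
    it_mem V' (fun i => hp i V' h') (by
      by_contra q
      exact he ⟨fun e => q (e ▸ zero_mem V'), h0 eV,
        hF V' h' ((V'.mem_or_inv_mem _).resolve_left q)⟩) j
  have m' : ∀ j, ∀ V' ∈ F, (divX^[j + 1] p).eval u * u ∈ V' := fun j V' h' => by
    rw [step]
    exact sub_mem (m j V' h') (hp j V' h')
  by_cases hb : Un V ((divX^[k] p).eval u)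
  · rcases k with _ | k
    · exact absurd (hb.mono h0) he
    · exact ⟨_, m _, hb, m' k⟩
  · refine ⟨_, m (k + 1), Un.of_mul ?_ (m _ V hV) hu, m' k⟩
    rw [step, sub_eq_neg_add]
    exact hk.neg.add (m k V hV) hb

end Pool.Agent.MP_ee8c61_ag.N3.M3K
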