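import Pool.Agent.MP_ee8c61_ag.N3K.Out
import Pool.Agent.MP_ee8c61_ag.N3K.RAv
import Pool.Agent.MP_ee8c61_ag.N3K.RBir
import Pool.Agent.MP_ee8c61_ag.N3K.RCn
import Pool.Agent.MP_ee8c61_ag.N3K.RCore
import Pool.Agent.MP_ee8c61_ag.N3K.RDt
import Pool.Agent.MP_ee8c61_ag.N3K.RHor
import Pool.Agent.MP_ee8c61_ag.N3K.RIso
import Pool.Agent.MP_ee8c61_ag.N3K.RKa
import Pool.Agent.MP_ee8c61_ag.N3K.RKb
import Pool.Agent.MP_ee8c61_ag.N3K.RLo
import Pool.Agent.MP_ee8c61_ag.N3K.RMo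
import Pool.Agent.MP_ee8c61_ag.N3K.RNa
import Pool.Agent.MP_ee8c61_ag.N3K.RNbr
import Pool.Agent.MP_ee8c61_ag.N3K.RNc
import Pool.Agent.MP_ee8c61_ag.N3K.RNg
import Pool.Agent.MP_ee8c61_ag.N3K.RNg0
import Pool.Agent.MP_ee8c61_ag.N3K.RNn
import Pool.Agent.MP_ee8c61_ag.N3K.RNode
import Pool.Agent.MP_ee8c61_ag.N3K.RNull
import Pool.Agent.MP_ee8c61_ag.N3K.RR0
import Pool.Agent.MP_ee8c61_ag.N3K.RReal
import Pool.Agent.MP_ee8c61_ag.N3K.RRf
import Pool.Agent.MP_ee8c61_ag.N3K.RRv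
import Pool.Agent.MP_ee8c61_ag.N3K.RSep
import Pool.Agent.MP_ee8c61_ag.N3K.RTc
import Pool.Agent.MP_ee8c61_ag.N3K.RTr
import Pool.Agent.MP_ee8c61_ag.N3K.RTr4
import Pool.Agent.MP_ee8c61_ag.N3K.RUl
import Pool.Agent.MP_ee8c61_ag.N3K.RUp
import Pool.Agent.MP_ee8c61_ag.N3K.RWall
import Pool.Agent.MP_ee8c61_ag.N3K.RXi

/-! Assembly of the block. -/

namespace Pool.Agent.MP_ee8c61_ag.N3.M3K

open Pool.Agent.MP_ee8c61_ag.M3

set_option linter.unusedSectionVars false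

variable [Base]

open M3E

theorem kout_of (hE : EOut) : KOut :=
  have ng0 := rowNg0 hE
  have th := rowTh hE
  have ka := rowKa hE ng0
  have kb := rowKb hE ka
  have xi := rowXi hE
  have rf := rowRf hE th ka
  have sep := rowSep hE
  have lo := rowLo hE
  have ng := rowNg hE lo
  have bir := rowBir hE
  have rv := rowRv hE rowUl rowTr rowTc bir
  have nn := rowNn hE ng rv
  have r0 := rowR0 hE
  have up := rowUp hE rowTr rowTc
  have dt := rowDt hE rowTr rowTc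
  have core := rowCore hE ng0 th ka kb up
  have mo := rowMo hE th dt
  have cn := rowCn hE
  have av := rowAv hE ng0
  have na := rowNa hE ng0 ka kb cn av
  have nc := rowNc hE ng0 th ka kb xi cn av
  have iso := rowIso hE ng0 ka kb
  have node := rowNode hE ka kb rf sep r0 na nc iso
  have hor := rowHor hE ng0 ka kb mo node
  { ng0, th, ka, kb, xi, rf, sep, lo, ng, bir, rv, nn, r0, up, dt, core, mo, cn, av, na, nc, iso,
    node, hor
    real := rowReal hE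
    ul := rowUl
    tr := rowTr
    tr4 := rowTr4
    tc := rowTc
    wall := rowWall hE ka rowUl rowTr4 ng
    null := rowNull hE ng0 ka rowTc hor
    nbr := rowNbr hE ng0
    kvl := kvl_of hE ng0 ka kb nn core }

end Pool.Agent.MP_ee8c61_ag.N3.M3K
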