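import Pool.Agent.MP_ee8c61_ag.N3K.Spec
import Pool.Agent.MP_ee8c61_ag.N3KV.Spec

/-! The data of a chamber on the upper model alone. -/

namespace Pool.Agent.MP_ee8c61_ag.N3.M3K

open Pool.Agent.MP_ee8c61_ag.M3

set_option linter.unusedSectionVars false

variable [Base]

open H59 M3 M3E Finset

noncomputable section

variable {N : ℕ} {f : Po N} {M : Mod N}

/-- The push-forward as a linear map. -/
def pfL {W : Mod N} (D : Dom W M) : (W.J → ℚ) →ₗ[ℚ] (M.J → ℚ) where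
  toFun := D.pf
  map_add' _ _ := rfl
  map_smul' _ _ := rfl

/-- The data on the upper model. -/
def pdOf (C : Ch f M) (L : C.W.J → ℤ) : M3KV.PD C.W :=
  ⟨{i | ∃ j, C.Alive j ∧ C.D.e j = i}, C.P ∘ₗ pfL C.D, L⟩

variable {C : Ch f M} {c : M.J → ℤ} {L : C.W.J → ℤ} {o : M.J}

theorem pdOf_P (x : C.W.J → ℚ) : (pdOf C L).P x = C.P (C.D.pf x) := rfl

theorem pf_e (hE : EOut) (hM : M.OK f) (j : M.J) :
    C.D.pf (C.W.q (C.W.e (C.D.e j))) = M.q (M.e j) := funext fun l => by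
  simp only [Dom.pf, Mod.q_apply, Mod.e_apply, (hE.dc N f C.W M C.D C.ok hM).inj.eq_iff]

theorem nu_eq (o : M.J) : M.nu = M.q (M.kk + M.e o) + M.dd o := funext fun j => by
  simp only [Mod.nu, Mod.dd, Mod.kk, Pi.add_apply, Mod.q_apply, Mod.e_apply]
  split_ifs <;> simp

/-- The discrepancy of the pair with boundary `o`. -/
theorem pdOf_dl (hE : EOut) (hM : M.OK f) (o : M.J) (i : C.W.J) :
    (pdOf C L).dl (C.D.e o) i = dl C i + C.P (M.dd o) i := by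
  have e : C.D.pf (C.W.q (C.W.kk + C.W.e (C.D.e o))) = M.q (M.kk + M.e o) := by
    rw [C.W.q_add, M.q_add, ← pf_e (C := C) hE hM]
    exact funext fun l => by
      simp only [Dom.pf, Pi.add_apply, Mod.q_apply, Mod.kk, (hE.jd N f C.W M C.D C.ok hM).2]
  rw [M3KV.PD.dl, pdOf_P, e, dl, nu_eq o, map_add]
  simp only [Pi.sub_apply, Pi.add_apply, Mod.nu]
  ring

theorem e_le_dd {j : M.J} (h : j ≠ o) : M.q (M.e j) ≤ M.dd o := fun l => by
  simp only [Mod.dd, Mod.q_apply, Mod.e_apply]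
  by_cases h1 : l = j
  · simp [h1, h]
  · rw [if_neg h1]
    split_ifs <;> simp

theorem dd_nonneg : 0 ≤ M.dd o := fun l => by
  simp only [Mod.dd, Pi.zero_apply]
  split_ifs <;> norm_num

theorem pdOf_ok (hE : EOut) (hN : SNg0) (hA : SKa) (hB : SKb) (hM : M.OK f) (hp : Pz C c L)
    (ho : C.Alive o) : (pdOf C L).OK (C.D.e o) := by
  have K := hA N f M C hM
  have K' := hB N f M C hM
  have Dc := hE.dc N f C.W M C.D C.ok hM
  have Aq := hE.aq N f C.W C.ok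
  refine ⟨⟨o, ho, rfl⟩, ?_, fun x x' h => K.congr _ _ fun j hj => h _ ⟨j, hj, rfl⟩,
    fun x g hg m x' _ e => K.excH (m • x) x' (fun i => ?_) ((hN N f C.W C.ok).pow _ m g hg),
    ?_, ?_, hp.free, fun x => ?_, fun x ε hε => ?_, fun i hi => ?_⟩
  · rintro x _ ⟨j, hj, rfl⟩
    exact hj _
  · have h1 : M.q (C.D.pf (m • x)) = m • C.D.pf (C.W.q x) := funext fun j =>
      congrFun (C.W.q_nsmul m x) (C.D.e j)
    rw [h1, map_nsmul, ← pdOf_P (L := L), ← e]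
    exact lt_add_one _
  · rw [pdOf_P, show (pdOf C L).L = L from rfl, hp.eq]
    exact K.congr _ _ fun j hj => hj _
  · rw [pdOf_P, ← K.aa, K.aa, ← Dc.aa, C.D.q_pb,
      show C.D.pf (C.D.pb (M.q M.aa)) = M.q M.aa from funext fun j => Dc.pb_e ℚ _ j,
      K.aa, ← C.D.q_pb, Dc.aa]
  · obtain ⟨r, hr⟩ := K.far _ hp.inn (C.D.pf (C.W.q x))
    have := K.semi _ (hr r le_rfl).2
    rw [map_add, map_nsmul, ← hp.eq] at this
    exact ⟨r, this⟩
  · obtain ⟨w, hw⟩ := C.ok.amp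
    set Y := C.P (C.D.pf (C.W.q w)) - C.W.q w with hY
    have h0 : (0 : ℚ) < ∑ i, |Y i| + 1 := by positivity
    set η := ε / (∑ i, |Y i| + 1) with hη
    have h1 : 0 < η := div_pos hε h0
    obtain ⟨r, hr⟩ := K.amp c L hp (C.D.pf (C.W.q x) - η • C.D.pf (C.W.q w))
    refine ⟨η • Y, ?_, fun i => ?_, r, fun n hn => ?_⟩
    · rintro _ ⟨j, hj, rfl⟩
      simp only [hY, Pi.smul_apply, Pi.sub_apply, hj _, Dom.pf, sub_self, smul_zero]
    · have h2 : Y i < ∑ i, |Y i| + 1 := ((le_abs_self _).trans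
        (single_le_sum (f := fun i => |Y i|) (fun _ _ => abs_nonneg _) (mem_univ i))).trans_lt
          (lt_add_one _)
      rw [Pi.smul_apply, smul_eq_mul, hη, div_mul_eq_mul_div, div_lt_iff₀ h0]
      exact mul_lt_mul_of_pos_left h2 hε
    · have := hr n hn _ (Aq.smul _ η h1 (Aq.of_amp w hw))
      rw [map_sub, map_smul] at this
      rw [pdOf_P, show (pdOf C L).L = L from rfl, hY, smul_sub]
      rwa [show n • C.W.q L + C.P (C.D.pf (C.W.q x)) -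
        (η • C.P (C.D.pf (C.W.q w)) - η • C.W.q w) = n • C.W.q L + (C.P (C.D.pf (C.W.q x)) -
          η • C.P (C.D.pf (C.W.q w))) + η • C.W.q w by abel]
  · rw [pdOf_dl hE hM]
    have h1 : 0 ≤ dl C i := K'.dl0 i
    have h2 : 0 ≤ C.P (M.dd o) i := K.mono _ dd_nonneg i
    rcases h1.lt_or_eq with h | h
    · linarith
    obtain ⟨j, hj, -, -, h3⟩ := K'.pltP o i hi h.symm
    have h4 : 0 ≤ C.P (M.dd o - M.q (M.e j)) i := K.mono _ (sub_nonneg.2 (e_le_dd hj)) i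
    rw [map_sub, Pi.sub_apply] at h4
    linarith

theorem nn_succ (hE : EOut) (hN : SNg0) {W : Mod N} (hW : W.OK f) {V : Vl N} (hV : Ov V)
    {F F' : W.J → ℤ} (hF : W.Free F') (h : Nn W V F) : Nn W V (F + F') := by
  have G := hN N f W hW
  obtain ⟨s, hs, s', hs', h1, h2⟩ := h
  obtain ⟨t, ht, h3⟩ := G.ex F' V hF hV
  obtain ⟨b, hb⟩ := hW.cov V hV
  refine ⟨s * t, G.mul _ _ _ hs _ ht, s' * t, G.mul _ _ _ hs' _ ht,
    (hE.bas N f W hW).gen_mul _ _ _ _ _ h1 h3, ?_⟩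
  rwa [mul_div_mul_right _ _ (left_ne_zero_of_mul (h3 b hb).1)]

end

theorem pdOf_nn (hE : EOut) (hN : SNg0) (hA : SKa) (hn : SNn) {f : Po 3} {M : Mod 3}
    {C : Ch f M} {c : M.J → ℤ} {L : C.W.J → ℤ} {o : M.J} (hM : M.OK f) (hp : Pz C c L)
    (ho : C.Alive o) {i : C.W.J} {V : Vl 3} (hV : C.W.IsCv (C.D.e o) i V) {n : ℕ}
    (h : Nn C.W V (n • L)) : (pdOf C L).NN (C.D.e o) V := by
  intro x
  have K := hA 3 f M C hM
  have h1 := nn_succ hE hN C.ok hV.2.1 hp.free h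
  rw [← succ_nsmul] at h1
  obtain ⟨e, he⟩ := hn f C.W C.ok _ i V _ hV
    (K.big _ _ o (K.pz_nsmul c L (n + 1) n.succ_pos hp) ho) h1 x
  obtain ⟨σ, h2, h3⟩ := he e le_rfl
  rw [smul_smul, add_comm] at h2 h3
  exact ⟨e * (n + 1), σ, h2, h3⟩

end Pool.Agent.MP_ee8c61_ag.N3.M3K
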