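import Pool.Agent.MP_ee8c61_ag.N3K.Spec

/-!
The local ring of the image of a divisor at a curve that is not contracted.
-/

namespace Pool.Agent.MP_ee8c61_ag.N3.M3K

open Pool.Agent.MP_ee8c61_ag.M3

set_option linter.unusedSectionVars false

variable [Base]

open H59 M3 M3E

namespace RRv

theorem adj {N : ℕ} {V : Vl N} (hV : Ov V) {T : Set (KK N)} (h : ∀ t ∈ T, t ∈ V) {g : KK N}
    (hg : g ∈ Algebra.adjoin ℂ T) : g ∈ V :=
  (Algebra.adjoin_le h : Algebra.adjoin ℂ T ≤ VA V fun c =>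
    (ip N).commutes c ▸ hV (algebraMap ℂ (Po N) c)) hg

end RRv

theorem rowRv : OfRv := by
  intro E hUl hTr hTc hBir f W hW o V y L s τ hV hy hB hs hg hτ ht u hu
  have B := E.bas 3 f W hW
  obtain ⟨b, hb⟩ := hW.cov V hV
  have hb' : W.In b (W.v o).O := fun g h => hy.le (hb g h)
  have hgO : W.Gen (W.v o).O L s := (B.gen_iff b _ L s hb').2 ((hg b hb).mono hy.le)
  obtain ⟨β, h1, h2, h3⟩ := hBir 3 f W hW o L s hB hs hgO y (hy.le hy.mem)
  obtain ⟨y', y1, y2, y3⟩ : ∃ y', Bs W (W.v o).O L s y' ∧ ¬Un V y' ∧ Un (W.v o).O y' := by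
    by_cases h : Un V β
    · exact ⟨β * y, fun V' a _ c => h3 V' a le_top c, not_un_mul h.2.1 hy.mem hy.non,
        h2.mul hy.un⟩
    · exact ⟨β, fun V' a _ c => h1 V' a le_top c, h, h2⟩
  obtain ⟨b0, hb0⟩ := hW.ne o
  obtain ⟨Φ, Ψ, hΦ, hΨ, hp⟩ := hTr (W.v o) _ τ y' u (hW.dv b0 o hb0).2.1
    (hy.le (hτ V hV hy.le hg)) (hy.le hu) y3
  have co : ∀ j, (Φ.map (Polynomial.aeval τ).toRingHom + Polynomial.C y' * Ψ).coeff j =
      Polynomial.aeval τ (Φ.coeff j) + y' * Ψ.coeff j := fun j => by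
    rw [Polynomial.coeff_add, Polynomial.coeff_map, Polynomial.coeff_C_mul]
    rfl
  have mΨ : ∀ V', Ov V' → V' ≤ (W.v o).O → W.Gen V' L s → ∀ j, Ψ.coeff j ∈ V' :=
    fun V' a c d j => RRv.adj a (by
      rintro t (rfl | rfl)
      exacts [hτ V' a c d, y1 V' a c d]) (hΨ j)
  obtain ⟨γ, g1, g2, g3⟩ := hUl (KK 3) (W.v o).O V
    {V' | Ov V' ∧ V' ≤ (W.v o).O ∧ W.Gen V' L s} _ u Φ.natDegree hy.le ⟨hV, hy.le, hg⟩
    (fun _ h => h.2.1) hu (fun j V' ⟨a, c, d⟩ => by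
      rw [co]
      exact add_mem (RRv.adj a (by rintro t rfl; exact hτ V' a c d)
        (Polynomial.aeval_mem_adjoin_singleton ℂ τ)) (mul_mem (y1 V' a c d) (mΨ V' a c d j)))
    (by
      rw [co, mul_comm]
      exact (hTc 3 V τ hV ht _ (Polynomial.leadingCoeff_ne_zero.2 hΦ)).add
        (mul_mem (mΨ V hV hy.le hg _) (y1 V hV hy.le hg))
        (not_un_mul (mΨ V hV hy.le hg _) (y1 V hV hy.le hg) y2))
    (B.small _ o le_rfl _ hp).2
  exact ⟨γ, fun V' a c d => g1 V' ⟨a, c, d⟩, g2, fun V' a c d => g3 V' ⟨a, c, d⟩⟩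

end Pool.Agent.MP_ee8c61_ag.N3.M3K
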