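import Pool.Agent.MP_ee8c61_ag.N3K.Cst
import Pool.Agent.MP_ee8c61_ag.N3K.RNull
import Pool.Agent.MP_ee8c61_ag.N3K.Out

/-! Divisors that are trivial along all refinements of a valuation ring; the pencil of a facet. -/

namespace Pool.Agent.MP_ee8c61_ag.N3.M3K

open Pool.Agent.MP_ee8c61_ag.M3

set_option linter.unusedSectionVars false

variable [Base]

open H59 M3 M3E Finset

variable {N : ℕ} {f : Po N} {W : Mod N} {V : Vl N} {x y : W.J → ℚ}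

/-- A multiple of `x` has one generator along all refinements of `V`. -/
def Triv (W : Mod N) (V : Vl N) (x : W.J → ℚ) : Prop :=
  ∃ (n : ℕ) (c : W.J → ℤ) (s : KK N), 0 < n ∧ W.q c = n • x ∧ ∀ V', V' ≤ V → Ov V' → W.Gen V' c s

theorem Triv.smul (B : Bas f W) (h : Triv W V x) (a : ℚ) : Triv W V (a • x) := by
  obtain ⟨n, c, s, hn, e, hs⟩ := h
  refine ⟨n * a.den, a.num • c, s ^ a.num, mul_pos hn a.den_pos, ?_,
    fun V' h1 h2 => RNull.gen_zpow B (hs V' h1 h2) _⟩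
  rw [W.q_zsmul, e, ← Nat.cast_smul_eq_nsmul ℚ, ← Nat.cast_smul_eq_nsmul ℚ, smul_smul, smul_smul,
    ← Rat.mul_den_eq_num a]
  congr 1
  push_cast
  ring

theorem Triv.add (B : Bas f W) (h : Triv W V x) (h' : Triv W V y) : Triv W V (x + y) := by
  obtain ⟨n, c, s, hn, e, hs⟩ := h
  obtain ⟨n', c', s', hn', e', hs'⟩ := h'
  refine ⟨n * n', n' • c + n • c', s ^ n' * s' ^ n, mul_pos hn hn', ?_, fun V' h1 h2 =>
    B.gen_mul _ _ _ _ _ (B.gen_pow _ _ _ _ (hs V' h1 h2)) (B.gen_pow _ _ _ _ (hs' V' h1 h2))⟩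
  rw [W.q_add, W.q_nsmul, W.q_nsmul, e, e', smul_smul, smul_smul, smul_add, mul_comm n' n]

theorem triv_aa (B : Bas f W) (a : ℚ) : Triv W V (a • W.q W.aa) := by
  have : Triv W V (-W.q W.aa) :=
    ⟨1, _, _, one_pos, by rw [one_smul, W.q_neg], fun V' _ _ => B.gen_f V'⟩
  simpa using this.smul B (-a)

/-- A semiample summand of a trivial divisor is trivial. -/
theorem Triv.gen (hE : EOut) (hN : SNg0) (hW : W.OK f) (hV : Ov V) (hx : ∀ l, ¬Tc V (xx N l))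
    (h : Triv W V (x + y)) (hy : W.SemiQ y) {a : ℕ} {c : W.J → ℤ} (e : W.q c = a • x) {s : KK N}
    (hs : s ∈ W.H c) (hG : W.Gen V c s) (V' : Vl N) (h1 : V' ≤ V) (h2 : Ov V') : W.Gen V' c s := by
  have B := hE.bas N f W hW
  have G := hN N f W hW
  obtain ⟨n, c₃, s₃, hn, e₃, h₃⟩ := h
  obtain ⟨μ, c₂, hμ, h₂, e₂⟩ := hy
  obtain ⟨t, ht, hG'⟩ := G.ex c₂ V h₂ hV
  have e₄ : (μ * n) • c + (a * n) • c₂ = (a * μ) • c₃ := W.q_inj (by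
    rw [W.q_add, W.q_nsmul, W.q_nsmul, W.q_nsmul, e, e₂, e₃, smul_smul, smul_smul, smul_smul,
      smul_add]
    congr 2 <;> ring)
  have h5 := G.pow _ (μ * n) s hs
  have h6 := G.pow _ (a * n) t ht
  have h7 := gen_le' hE hW hV hx (fun V' h1 h2 => B.gen_pow _ _ _ (a * μ) (h₃ V' h1 h2))
    (e₄ ▸ G.mul _ _ _ h5 _ h6)
    (e₄ ▸ B.gen_mul _ _ _ _ _ (B.gen_pow _ _ _ _ hG) (B.gen_pow _ _ _ _ hG')) h1 h2
  exact B.gen_root _ _ _ _ (mul_pos hμ hn)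
    (B.gen_of_mul _ _ _ _ _ (h5 V' h2) (h6 V' h2) (e₄ ▸ h7))

variable {M : Mod N} {C : Ch f M}

theorem triv_pt (hE : EOut) (hA : SKa) (hM : M.OK f) {d : M.J → ℚ} {κ : ℚ} {m : ℕ} (hm : 0 < m)
    {c : C.W.J → ℤ} (e : C.W.q c = m • C.P (d - κ • M.q M.aa)) {s : KK N}
    (hs : ∀ V', V' ≤ V → Ov V' → C.W.Gen V' c s) : Triv C.W V (C.P d) := by
  have B := hE.bas N f C.W C.ok
  have := Triv.add B ⟨m, c, s, hm, e, hs⟩ (triv_aa B κ)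
  rwa [map_sub, map_smul, (hA N f M C hM).aa, sub_add_cancel] at this

/-- A centre that is contracted by one interior divisor is contracted by all of them. -/
theorem not_nn_of_triv (hE : EOut) (hN : SNg0) (hA : SKa) (hM : M.OK f) (hV : Ov V)
    (hx : ∀ l, ¬Tc V (xx N l)) {d : M.J → ℚ} (hd : Inn C.U d) (h : Triv C.W V (C.P d))
    {c : M.J → ℤ} {L : C.W.J → ℤ} (hp : Mob C c L) (n : ℕ) : ¬Nn C.W V (n • L) := by
  have K := hA N f M C hM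
  have B := hE.bas N f C.W C.ok
  obtain ⟨r, hr⟩ := K.far d hd (-M.q c)
  obtain ⟨s, hs, hG⟩ := (hN N f C.W C.ok).ex _ V (B.free_nsmul L n hp.free) hV
  refine not_nn hE C.ok hV hx (s := s) (Triv.gen hE hN C.ok hV hx (x := C.W.q L) ?_
    (K.semi _ (hr r le_rfl).2) (C.W.q_nsmul n L) hs hG)
  rw [map_add, map_neg, ← hp.eq, add_comm, neg_add_cancel_right, ← Nat.cast_smul_eq_nsmul ℚ,
    map_smul]
  exact h.smul B _

/-- The two ends of a segment in the facet. -/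
theorem pen_sec (hE : EOut) (hN : SNg0) (hA : SKa) (hM : M.OK f) (hV : Ov V)
    (hx : ∀ l, ¬Tc V (xx N l)) {w : (M.J → ℚ) →ₗ[ℚ] ℚ} (hw : C.Facet w)
    (h : Triv C.W V (C.P (M.nu + C.t • C.h))) {u : M.J → ℚ} (hu : w u = 0) :
    ∃ (c₁ : M.J → ℤ) (c₁' : C.W.J → ℤ) (c₂ : M.J → ℤ) (c₂' : C.W.J → ℤ) (n : ℚ) (s₁ s₂ : KK N),
      0 < n ∧ Mob C c₁ c₁' ∧ Mob C c₂ c₂' ∧ M.q c₁ - M.q c₂ = n • u ∧ s₁ ∈ M.H c₁ ∧ s₂ ∈ M.H c₂ ∧
      ∀ V', V' ≤ V → Ov V' → C.W.Gen V' c₁' s₁ ∧ C.W.Gen V' c₂' s₂ := by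
  have K := hA N f M C hM
  have B := hE.bas N f C.W C.ok
  have Aq := hE.aq N f C.W C.ok
  set d := M.nu + C.t • C.h
  have key : ∀ (u : M.J → ℚ) (δ δ' : ℚ), 0 < δ → 0 < δ' → d + δ • u ∈ C.U → d + δ' • (-u) ∈ C.U →
      ∀ (a : ℕ) c c', M.q c = a • (d + δ • u) → Mob C c c' →
      ∃ s ∈ M.H c, ∀ V', V' ≤ V → Ov V' → C.W.Gen V' c' s := by
    intro u δ δ' h1 h2 _ h4 a c c' e hc
    obtain ⟨s, hs, hG⟩ := (hN N f C.W C.ok).ex _ V hc.free hV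
    have e1 : M.H c = C.W.H c' := by simpa using hc.H 1
    refine ⟨s, e1 ▸ hs,
      Triv.gen hE hN C.ok hV hx (x := C.P (d + δ • u)) (a := a) ?_
        (Aq.smul' _ (δ / δ') (div_pos h1 h2).le (K.semi _ h4)) (by rw [hc.eq, e, map_nsmul]) hs hG⟩
    rw [← map_smul, ← map_add, show d + δ • u + (δ / δ') • (d + δ' • -u) = (1 + δ / δ') • d by
      rw [smul_add, smul_smul, div_mul_cancel₀ _ h2.ne', add_smul, one_smul, smul_neg]; abel,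
      map_smul]
    exact h.smul B _
  obtain ⟨δ₁, p₁, h₁⟩ := hw.mem u hu
  obtain ⟨δ₂, p₂, h₂⟩ := hw.mem (-u) (by rw [map_neg, hu, neg_zero])
  obtain ⟨m₁, c₁, c₁', q₁, e₁, k₁⟩ := K.mob _ h₁
  obtain ⟨m₂, c₂, c₂', q₂, e₂, k₂⟩ := K.mob _ h₂
  obtain ⟨s₁, a₁, b₁⟩ := key u δ₁ δ₂ p₁ p₂ h₁ h₂ (m₂ * m₁) _ _
    (by rw [M.q_nsmul, e₁, smul_smul]) (K.mob_nsmul _ _ m₂ k₁)
  obtain ⟨s₂, a₂, b₂⟩ := key (-u) δ₂ δ₁ p₂ p₁ h₂ (by rwa [neg_neg]) (m₁ * m₂) _ _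
    (by rw [M.q_nsmul, e₂, smul_smul]) (K.mob_nsmul _ _ m₁ k₂)
  refine ⟨_, _, _, _, (m₁ * m₂ : ℕ) * (δ₁ + δ₂), s₁, s₂, by positivity, K.mob_nsmul _ _ m₂ k₁,
    K.mob_nsmul _ _ m₁ k₂, ?_, a₁, a₂, fun V' h1 h2 => ⟨b₁ V' h1 h2, b₂ V' h1 h2⟩⟩
  rw [M.q_nsmul, M.q_nsmul, e₁, e₂]
  funext l
  simp only [Pi.sub_apply, Pi.smul_apply, Pi.add_apply, Pi.neg_apply, nsmul_eq_mul, smul_eq_mul,
    Pi.mul_apply, Pi.natCast_apply]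
  push_cast
  ring

/-- A contracted centre with a nonconstant ratio of sections is a curve of log discrepancy zero
on a higher model. -/
theorem null_dl (hE : EOut) (hK : KOut) {f : Po 3} {M : Mod 3} {C : Ch f M} (hM : M.OK f)
    {o : M.J} (ho : C.Alive o) {V : Vl 3} (hV : Ov V) (h1 : V ≤ (M.v o).O)
    (hn : ∀ c L, Mob C c L → ∀ n : ℕ, ¬Nn C.W V (n • L)) {c₁ c₂ : M.J → ℤ} {c₁' c₂' : C.W.J → ℤ}
    {s₁ s₂ : KK 3} (m₁ : Mob C c₁ c₁') (m₂ : Mob C c₂ c₂') (a₁ : s₁ ∈ M.H c₁) (a₂ : s₂ ∈ M.H c₂)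
    (g₁ : C.W.Gen V c₁' s₁) (g₂ : C.W.Gen V c₂' s₂) (hT : Tc V (s₁ / s₂)) :
    ∃ (W' : Mod 3) (D' : Dom W' C.W) (h : RfOK C D') (i : W'.J),
      W'.IsCv (D'.e (C.D.e o)) i V ∧ dl (refine C D' h) i = 0 := by
  obtain ⟨W', D', hW', hl⟩ := hK.real 3 f C.W C.ok (C.D.e o) V (s₁ / s₂) hV
    (by rwa [C.D.v]) (by simpa using hT 0)
  obtain ⟨h, R⟩ := hK.rf 3 f M C hM W' D' hW'
  have Dc := hE.dc 3 f W' C.W D' hW' C.ok
  obtain ⟨c, L, hp⟩ := (hK.ka 3 f M C hM).pz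
  obtain ⟨b, hb⟩ := hW'.cov V hV
  have h2 : ∀ n : ℕ, ¬Nn W' V (n • D'.pb L) := fun n => by
    rw [← D'.pb_nsmul, R.nn _ V hV]
    exact hn c L hp.toMob n
  by_cases h3 : ∀ i, W'.Thru V i → i = D'.e (C.D.e o)
  · obtain ⟨n, h4⟩ := hK.nbr 3 f W' hW' _ _ V b _
      ((hK.ka 3 f M (refine C D' h) hM).big c _ o (R.pz c L hp) ((R.alive o).2 ho)) hb h3
      (hl b hb) hT
    exact absurd h4 (h2 n)
  push Not at h3
  obtain ⟨i, h4, h5⟩ := h3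
  have h6 := hK.up f W' hW' _ i V b _ h5 hb (by rwa [D'.v, C.D.v]) h4 (hl b hb) hT
  exact ⟨W', D', h, i, h6, hK.null f M (refine C D' h) hM o i V c _ ((R.alive o).2 ho)
    (R.pz c L hp) h6 h2 c₁ _ c₂ _ s₁ s₂ 0 (R.mob _ _ m₁) (R.mob _ _ m₂) a₁ a₂
    ((Dc.gen V _ _ hV).1 g₁) ((Dc.gen V _ _ hV).1 g₂) (by simpa using hT)⟩

end Pool.Agent.MP_ee8c61_ag.N3.M3K
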